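import Pool.Agent.Q122.WS.Main

/-! The theorem for one polynomial. -/

set_option autoImplicit false

namespace Pool.Agent.Q122.WS

open Finset Real Polynomial
open scoped Classical
open Pool.Agent.W57.SW Pool.Agent.H379R2.W

theorem dvd_of_sq_dvd {a c n : ℤ} (hn : Squarefree n) (ha : a ≠ 0) (h : a ^ 2 ∣ c * n) : a ∣ c := by
  set g : ℤ := (Int.gcd (a ^ 2) n : ℤ) with hg
  have hga : g ∣ a ^ 2 := Int.gcd_dvd_left _ _
  have hgn : g ∣ n := Int.gcd_dvd_right _ _
  have hgs : Squarefree g := hn.squarefree_of_dvd hgn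
  have hg1 : g ∣ a := (hgs.dvd_pow_iff_dvd two_ne_zero).1 hga
  obtain ⟨u, hu⟩ := hg1
  obtain ⟨w, hw⟩ := hgn
  have hg0 : g ≠ 0 := by
    rintro h0
    rw [h0, zero_mul] at hu
    exact ha hu
  -- `a * u ∣ c * w`, and `gcd (a * u) w = 1`
  have h1 : a * u ∣ c * w := by
    obtain ⟨z, hz⟩ := h
    refine ⟨z, ?_⟩
    apply mul_left_cancel₀ hg0
    calc g * (c * w) = c * (g * w) := by ring
      _ = c * n := by rw [← hw]
      _ = a ^ 2 * z := hz
      _ = g * (a * u * z) := by
          rw [pow_two]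
          nth_rewrite 1 [hu]
          ring
  have h2 : IsCoprime (a * u) w := by
    rw [Int.isCoprime_iff_gcd_eq_one]
    have e1 : a ^ 2 = g * (a * u) := by
      rw [pow_two]
      nth_rewrite 1 [hu]
      ring
    have e2 : Int.gcd (a ^ 2) n = Int.gcd (g * (a * u)) (g * w) := by rw [← e1, ← hw]
    rw [Int.gcd_mul_left] at e2
    have e3 : g.natAbs = Int.gcd (a ^ 2) n := by rw [hg]; simp
    rw [e3] at e2
    have e4 : 0 < Int.gcd (a ^ 2) n := by
      rw [← e3]
      exact Int.natAbs_pos.2 hg0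
    have e5 : Int.gcd (a ^ 2) n * 1 = Int.gcd (a ^ 2) n * Int.gcd (a * u) w := by
      rw [mul_one]
      exact e2
    exact (Nat.eq_of_mul_eq_mul_left e4 e5).symm
  have h3 : a * u ∣ c := h2.dvd_of_dvd_mul_right h1
  exact dvd_trans (dvd_mul_right _ _) h3

/-- a polynomial which is not squarefree: only finitely many squarefree values -/
theorem nonsqf (f : ℤ[X]) (hf1 : 1 ≤ f.natDegree) (h : ¬ Squarefree (f.map (Int.castRingHom ℚ))) :
    ∃ F : Finset ℤ, ∀ t : ℤ, Squarefree (f.eval t) → t ∈ F := by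
  have hf0 : f.map (Int.castRingHom ℚ) ≠ 0 := by
    intro h0
    have h1 := (Polynomial.map_eq_zero_iff (RingHom.injective_int _)).1 h0
    rw [h1] at hf1
    simp at hf1
  unfold Squarefree at h
  push Not at h
  obtain ⟨y, ⟨z, hz⟩, hy⟩ := h
  have hy0 : y ≠ 0 := by
    rintro rfl
    apply hf0
    rw [hz]
    simp
  have hz0 : z ≠ 0 := by
    rintro rfl
    apply hf0
    rw [hz]
    simp
  obtain ⟨N1, Y, hN1, hY⟩ := Pool.Agent.Q122.TF.clear y
  obtain ⟨N2, Z, hN2, hZ⟩ := Pool.Agent.Q122.TF.clear z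
  have hmain : ∀ t : ℤ, (N1 ^ 2 * N2) * f.eval t = (Y.eval t) ^ 2 * Z.eval t := by
    intro t
    have e : ∀ P : ℤ[X], ((P.eval t : ℤ) : ℚ) = (P.map (Int.castRingHom ℚ)).eval (t : ℚ) := by
      intro P
      rw [eval_intCast_map]
      simp
    have h1 : (((N1 ^ 2 * N2) * f.eval t : ℤ) : ℚ) = (((Y.eval t) ^ 2 * Z.eval t : ℤ) : ℚ) := by
      push_cast
      rw [e f, e Y, e Z, hz, hY, hZ]
      simp only [eval_mul, eval_intCast]
      ring
    exact_mod_cast h1
  have hYd : Y.natDegree ≠ 0 := by
    intro h0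
    have h1 : (Y.map (Int.castRingHom ℚ)).natDegree = 0 := by
      rw [natDegree_map_eq_of_injective (RingHom.injective_int _), h0]
    rw [hY] at h1
    have h2 : ((N1 : ℚ[X]) * y).natDegree = y.natDegree := by
      have : (N1 : ℚ[X]) = C (N1 : ℚ) := by simp
      rw [this, natDegree_C_mul (by exact_mod_cast hN1)]
    rw [h2] at h1
    apply hy
    rw [isUnit_iff_degree_eq_zero, degree_eq_natDegree hy0, h1]
    rfl
  set c : ℤ := N1 ^ 2 * N2 with hc
  have hc0 : c ≠ 0 := mul_ne_zero (pow_ne_zero _ hN1) hN2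
  -- the set of `t` with `|Y(t)| ≤ |c|`
  refine ⟨(Icc (-|c|) |c|).biUnion (fun v => (Y - C v).roots.toFinset), ?_⟩
  intro t ht
  have h1 := hmain t
  have h2 : (Y.eval t) ^ 2 ∣ c * f.eval t := ⟨Z.eval t, h1⟩
  have h3 : |Y.eval t| ≤ |c| := by
    by_cases hY0 : Y.eval t = 0
    · rw [hY0, abs_zero]; exact abs_nonneg _
    · have h4 := dvd_of_sq_dvd ht hY0 h2
      exact Int.le_of_dvd (abs_pos.2 hc0) ((abs_dvd_abs _ _).2 h4)
  rw [mem_biUnion]
  refine ⟨Y.eval t, mem_Icc.2 (abs_le.1 h3), ?_⟩
  have h5 : Y - C (Y.eval t) ≠ 0 := by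
    intro h6
    have : Y = C (Y.eval t) := by rwa [sub_eq_zero] at h6
    rw [this, natDegree_C] at hYd
    exact hYd rfl
  rw [Multiset.mem_toFinset, mem_roots h5, IsRoot.def, eval_sub, eval_C, sub_self]

/-- a polynomial attains small values only finitely often -/
theorem small_vals (f : ℤ[X]) (hf1 : 1 ≤ f.natDegree) (N : ℕ) :
    ∃ F : Finset ℤ, ∀ t : ℤ, |f.eval t| ≤ N → t ∈ F := by
  refine ⟨(Icc (-(N : ℤ)) N).biUnion (fun v => (f - C v).roots.toFinset), ?_⟩
  intro t ht
  rw [mem_biUnion]
  refine ⟨f.eval t, mem_Icc.2 (abs_le.1 ht), ?_⟩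
  have h5 : f - C (f.eval t) ≠ 0 := by
    intro h6
    have : f = C (f.eval t) := by rwa [sub_eq_zero] at h6
    rw [this, natDegree_C] at hf1
    omega
  rw [Multiset.mem_toFinset, mem_roots h5, IsRoot.def, eval_sub, eval_C, sub_self]

theorem expo_mono (A θ e : ℝ) (hA : 2 ≤ A) (he : 0 ≤ e) : expo A (θ + e) ≤ expo A θ + e := by
  unfold expo
  have hA0 : 0 < A := by linarith
  apply max_le
  · have := le_max_left ((A + 1) / (2 * A)) ((θ * (A - 1) + (A + 1)) / (A * (A + 1)))
    linarith
  · have h1 := le_max_right ((A + 1) / (2 * A)) ((θ * (A - 1) + (A + 1)) / (A * (A + 1)))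
    have h2 : ((θ + e) * (A - 1) + (A + 1)) / (A * (A + 1)) ≤
        (θ * (A - 1) + (A + 1)) / (A * (A + 1)) + e := by
      rw [div_add' _ _ _ (by positivity)]
      apply div_le_div_of_nonneg_right _ (by positivity)
      have h3 : A - 1 ≤ A * (A + 1) := by nlinarith
      have h4 := mul_le_mul_of_nonneg_left h3 he
      linarith
    linarith

theorem fixed (f : ℤ[X]) (A ε : ℝ) (hA : 2 ≤ A) (hf1 : 1 ≤ f.natDegree)
    (hfA : (f.natDegree : ℝ) < A + 1) (hε : 0 < ε) : ∃ K : ℝ, 0 < K ∧ ∀ T : ℕ, 1 ≤ T →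
      (((Icc (-(T : ℤ)) T).filter (fun t => ∃ n : ℕ, f.eval t = n ∧ Bd A n)).card : ℝ) ≤
        K * (T : ℝ) ^ (expo A f.natDegree + ε) := by
  have hA0 : 0 < A := by linarith
  set d : ℕ := f.natDegree with hd
  have hE0 : 0 ≤ expo A d := by
    have := le_max_left ((A + 1) / (2 * A)) (((d : ℝ) * (A - 1) + (A + 1)) / (A * (A + 1)))
    have h2 : 0 ≤ (A + 1) / (2 * A) := by positivity
    exact h2.trans this
  -- finitely many exceptions suffice
  have hfin : (∃ F : Finset ℤ, ∀ t : ℤ, (∃ n : ℕ, f.eval t = n ∧ Bd A n) → t ∈ F) →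
      ∃ K : ℝ, 0 < K ∧ ∀ T : ℕ, 1 ≤ T →
      (((Icc (-(T : ℤ)) T).filter (fun t => ∃ n : ℕ, f.eval t = n ∧ Bd A n)).card : ℝ) ≤
        K * (T : ℝ) ^ (expo A d + ε) := by
    rintro ⟨F, hF⟩
    refine ⟨F.card + 1, by positivity, fun T hT => ?_⟩
    have hTr : (1 : ℝ) ≤ T := by exact_mod_cast hT
    have h1 : (((Icc (-(T : ℤ)) T).filter (fun t => ∃ n : ℕ, f.eval t = n ∧ Bd A n)).card : ℝ) ≤
        F.card := by
      have : (Icc (-(T : ℤ)) T).filter (fun t => ∃ n : ℕ, f.eval t = n ∧ Bd A n) ⊆ F := by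
        intro t ht
        rw [mem_filter] at ht
        exact hF t ht.2
      exact_mod_cast card_le_card this
    have h2 : 1 ≤ (T : ℝ) ^ (expo A d + ε) := one_le_rpow hTr (by linarith)
    nlinarith [show (0 : ℝ) ≤ F.card by positivity]
  obtain ⟨N1, hN1⟩ := bad_squarefree
  by_cases hsq : Squarefree (f.map (Int.castRingHom ℚ))
  · by_cases hprim : ∀ p : ℕ, p.Prime → ∃ i, ¬ (p : ℤ) ∣ f.coeff i
    · -- the main case
      obtain ⟨e, he0, he1, he2⟩ : ∃ e : ℝ, 0 < e ∧ 2 * e ≤ ε ∧ (d : ℝ) + e < A + 1 :=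
        ⟨min (ε / 2) ((A + 1 - d) / 2), lt_min (by linarith) (by linarith), by
          have := min_le_left (ε / 2) ((A + 1 - d) / 2)
          linarith, by
          have := min_le_right (ε / 2) ((A + 1 - d) / 2)
          linarith⟩
      have hd0 : (0 : ℝ) ≤ d := by positivity
      obtain ⟨K, hK, h⟩ := main d A (d + e) 1 e hf1 hA (by linarith) he2 one_pos he0
      -- bound of the coefficients
      set H : ℝ := ∑ i ∈ Finset.range (d + 1), |(f.coeff i : ℝ)| with hH
      have hH0 : 0 ≤ H := sum_nonneg fun _ _ => abs_nonneg _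
      have hcoef : ∀ i, |(f.coeff i : ℝ)| ≤ H := by
        intro i
        rcases Nat.lt_or_ge d i with hi | hi
        · rw [coeff_eq_zero_of_natDegree_lt hi]
          simpa using hH0
        · exact single_le_sum (f := fun i => |(f.coeff i : ℝ)|) (fun _ _ => abs_nonneg _)
            (Finset.mem_range.2 (by omega))
      have hval : ∀ (T : ℕ) (t : ℤ), 1 ≤ T → |(t : ℝ)| ≤ T →
          ((f.eval t : ℤ) : ℝ) ≤ H * (T : ℝ) ^ d := by
        intro T t hT ht
        have hTr : (1 : ℝ) ≤ T := by exact_mod_cast hT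
        rw [eval_eq_sum_range, hH, sum_mul]
        push_cast
        refine sum_le_sum fun i hi => ?_
        rw [Finset.mem_range] at hi
        calc (f.coeff i : ℝ) * (t : ℝ) ^ i ≤ |(f.coeff i : ℝ) * (t : ℝ) ^ i| := le_abs_self _
          _ = |(f.coeff i : ℝ)| * |(t : ℝ)| ^ i := by rw [abs_mul, abs_pow]
          _ ≤ |(f.coeff i : ℝ)| * (T : ℝ) ^ d := by
              gcongr
              calc |(t : ℝ)| ^ i ≤ (T : ℝ) ^ i := pow_le_pow_left₀ (abs_nonneg _) ht i
                _ ≤ (T : ℝ) ^ d := pow_le_pow_right₀ hTr (by omega)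
      set T0 : ℝ := max ((H + 1) ^ (1 / e)) (H + 1) with hT0
      have hT01 : 1 ≤ T0 := by
        have := le_max_right ((H + 1) ^ (1 / e)) (H + 1)
        linarith
      refine ⟨K * 3 ^ (expo A (d + e) + e) + 3 * T0, by positivity, ?_⟩
      intro T hT
      have hTr : (1 : ℝ) ≤ T := by exact_mod_cast hT
      have hTp : (0 : ℝ) < T := by linarith
      have hpow : 1 ≤ (T : ℝ) ^ (expo A d + ε) := one_le_rpow hTr (by linarith)
      rcases lt_or_ge (T : ℝ) T0 with hlt | hge
      · have e1 : (((Icc (-(T : ℤ)) T).filter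
            (fun t => ∃ n : ℕ, f.eval t = n ∧ Bd A n)).card : ℝ) ≤ 3 * T := by
          have e2 := card_filter_le (Icc (-(T : ℤ)) T) (fun t => ∃ n : ℕ, f.eval t = n ∧ Bd A n)
          rw [Int.card_Icc] at e2
          have e3 : ((T : ℤ) + 1 - -(T : ℤ)).toNat ≤ 3 * T := by omega
          exact_mod_cast e2.trans e3
        calc (((Icc (-(T : ℤ)) T).filter (fun t => ∃ n : ℕ, f.eval t = n ∧ Bd A n)).card : ℝ)
            ≤ 3 * T0 * 1 := by linarith
          _ ≤ (K * 3 ^ (expo A (d + e) + e) + 3 * T0) * (T : ℝ) ^ (expo A d + ε) := by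
              apply mul_le_mul _ hpow zero_le_one (by positivity)
              have : 0 ≤ K * (3 : ℝ) ^ (expo A (d + e) + e) := by positivity
              linarith
      · have hTH : H + 1 ≤ T := (le_max_right _ _).trans hge
        have hTe : H + 1 ≤ (T : ℝ) ^ e := by
          calc H + 1 = ((H + 1) ^ (1 / e)) ^ e := by
                rw [← rpow_mul (by linarith), one_div_mul_cancel he0.ne', rpow_one]
            _ ≤ (T : ℝ) ^ e := rpow_le_rpow (by positivity) ((le_max_left _ _).trans hge) he0.le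
        have h1 := h f (-(T : ℤ) - 1) (2 * T + 1) (by omega) hf1 le_rfl hsq hprim (by
            intro i
            rw [rpow_one]
            push_cast
            linarith [hcoef i]) (by
            rw [rpow_one]
            push_cast
            rw [show -(T : ℝ) - 1 = -(T + 1) by ring, abs_neg, abs_of_nonneg (by positivity)]
            linarith) (by
            intro t ht
            rw [mem_Ioc] at ht
            have e1 : |(t : ℝ)| ≤ T := by
              have f1 : (-(T : ℤ)) ≤ t := by omega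
              have f2 : t ≤ T := by
                have := ht.2
                push_cast at this
                omega
              rw [abs_le]
              constructor
              · exact_mod_cast f1
              · exact_mod_cast f2
            refine (hval T t hT e1).trans ?_
            have e2 : H * (T : ℝ) ^ d ≤ (T : ℝ) ^ (d + e) := by
              rw [rpow_add hTp, rpow_natCast, mul_comm]
              gcongr
              linarith
            refine e2.trans ?_
            apply rpow_le_rpow hTp.le _ (by linarith)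
            push_cast
            linarith)
        have hset : (Icc (-(T : ℤ)) T) = Ioc (-(T : ℤ) - 1) (-(T : ℤ) - 1 + ((2 * T + 1 : ℕ) : ℤ)) := by
          ext t
          rw [mem_Icc, mem_Ioc]
          push_cast
          constructor
          · rintro ⟨h2, h3⟩
            constructor <;> omega
          · rintro ⟨h2, h3⟩
            constructor <;> omega
        rw [hset]
        refine h1.trans ?_
        have hee : expo A (d + e) + e ≤ expo A d + ε := by
          have := expo_mono A d e hA he0.le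
          linarith
        have hexp0 : 0 ≤ expo A (d + e) + e := by
          have h3 : expo A d ≤ expo A (d + e) := by
            unfold expo
            apply max_le_max le_rfl
            apply div_le_div_of_nonneg_right _ (by positivity)
            nlinarith
          linarith
        have h4 : (((2 * T + 1 : ℕ) : ℝ)) ^ (expo A (d + e) + e) ≤
            (3 : ℝ) ^ (expo A (d + e) + e) * (T : ℝ) ^ (expo A d + ε) := by
          calc (((2 * T + 1 : ℕ) : ℝ)) ^ (expo A (d + e) + e) ≤ (3 * (T : ℝ)) ^ (expo A (d + e) + e) := by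
                apply rpow_le_rpow (by positivity) _ hexp0
                push_cast
                linarith
            _ = (3 : ℝ) ^ (expo A (d + e) + e) * (T : ℝ) ^ (expo A (d + e) + e) :=
                mul_rpow (by norm_num) hTp.le
            _ ≤ _ := by
                apply mul_le_mul_of_nonneg_left _ (by positivity)
                exact rpow_le_rpow_of_exponent_le hTr hee
        calc K * (((2 * T + 1 : ℕ) : ℝ)) ^ (expo A (d + e) + e)
            ≤ K * ((3 : ℝ) ^ (expo A (d + e) + e) * (T : ℝ) ^ (expo A d + ε)) := by gcongr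
          _ = K * (3 : ℝ) ^ (expo A (d + e) + e) * (T : ℝ) ^ (expo A d + ε) := by ring
          _ ≤ _ := by
              apply mul_le_mul_of_nonneg_right _ (by positivity)
              have : 0 ≤ 3 * T0 := by linarith
              linarith
    · apply hfin
      push Not at hprim
      obtain ⟨p, hp, hpc⟩ := hprim
      obtain ⟨F, hF⟩ := small_vals f hf1 (max 3 ⌈exp p⌉₊)
      refine ⟨F, ?_⟩
      rintro t ⟨n, hn, hb⟩
      apply hF
      rw [hn, Nat.abs_cast]
      by_contra hcon
      push Not at hcon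
      have hn3 : max 3 ⌈exp p⌉₊ < n := by exact_mod_cast hcon
      have hn33 : 3 ≤ n := (le_max_left _ _).trans hn3.le
      have hpn : p ∣ n := by
        have h1 : C (p : ℤ) ∣ f := (C_dvd_iff_dvd_coeff _ _).2 hpc
        obtain ⟨g, hg⟩ := h1
        have h2 : (p : ℤ) ∣ f.eval t := by
          rw [hg, eval_mul, eval_C]
          exact dvd_mul_right _ _
        rw [hn] at h2
        exact_mod_cast h2
      have h3 := bd_prime_large hb hp hpn
      have h4 : exp p ≤ n := Nat.ceil_le.1 ((le_max_right _ _).trans hn3.le)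
      have hn0 : (0 : ℝ) < n := by
        have := exp_pos (p : ℝ)
        linarith
      have h5 : (p : ℝ) ≤ log n := by
        rw [le_log_iff_exp_le hn0]
        exact h4
      have h6 := one_le_log hn33
      have h7 : log (n : ℝ) ≤ (log (n : ℝ)) ^ A := by
        calc log (n : ℝ) = (log (n : ℝ)) ^ (1 : ℝ) := (rpow_one _).symm
          _ ≤ _ := rpow_le_rpow_of_exponent_le h6 (by linarith)
      linarith
  · apply hfin
    obtain ⟨F1, hF1⟩ := nonsqf f hf1 hsq
    obtain ⟨F2, hF2⟩ := small_vals f hf1 (max N1 3)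
    refine ⟨F1 ∪ F2, ?_⟩
    rintro t ⟨n, hn, hb⟩
    rw [mem_union]
    by_cases hnN : n ≤ max N1 3
    · right
      apply hF2
      rw [hn, Nat.abs_cast]
      exact_mod_cast hnN
    · left
      push Not at hnN
      apply hF1
      rw [hn, Int.squarefree_natCast]
      exact hN1 n ((le_max_left _ _).trans hnN.le) (hb.bad hA ((le_max_right _ _).trans hnN.le))

end Pool.Agent.Q122.WS
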