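import Pool.Agent.W57.SW.Count

/-! The odd squarefree integers modulo which all small primes have symbol one. -/

set_option autoImplicit false

namespace Pool.Agent.Q122.WS

open Finset Real
open scoped Classical
open Pool.Agent.W57.SW Pool.Agent.H379R2.W

/-- `m` is odd, squarefree, and all odd primes `ℓ ≤ (log m) ^ A` have symbol `(ℓ/m) = 1` -/
def GA (A : ℝ) (m : ℕ) : Prop := Odd m ∧ Squarefree m ∧
  ∀ ℓ : ℕ, ℓ.Prime → ℓ ≠ 2 → (ℓ : ℝ) ≤ (log m) ^ A → jacobiSym (ℓ : ℤ) m = 1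

theorem GA_of_Dq {A : ℝ} {x m : ℕ} (hA : 0 ≤ A) (h : m ∈ Dq A x) : GA A m := by
  rw [mem_Dq] at h
  refine ⟨h.2.1, h.2.2.1, fun ℓ h1 h2 h3 => h.2.2.2 ℓ ?_⟩
  rw [mem_opr]
  refine ⟨h1, ?_, h2⟩
  apply Nat.le_floor
  refine h3.trans ?_
  have hm : (1 : ℝ) ≤ m := by exact_mod_cast h.1.1
  apply rpow_le_rpow (log_nonneg hm) _ hA
  apply log_le_log (by linarith)
  exact_mod_cast h.1.2

theorem GA_count (A ε : ℝ) (hA : 1 < A) (hε : 0 < ε) : ∃ K : ℝ, 0 < K ∧ ∀ X : ℕ,
    (((Icc 1 X).filter (GA A)).card : ℝ) ≤ K * (X : ℝ) ^ (1 / A + ε) := by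
  have hA0 : 0 < A := by linarith
  have hiA : 1 / A < 1 := by rw [div_lt_one hA0]; exact hA
  have hiA0 : 0 < 1 / A := by positivity
  obtain ⟨e1, he10, he11, he12⟩ : ∃ e1 : ℝ, 0 < e1 ∧ e1 ≤ ε / 2 ∧ 1 / A + e1 < 1 :=
    ⟨min (ε / 2) ((1 - 1 / A) / 2), lt_min (by linarith) (by linarith), min_le_left _ _, by
      have := min_le_right (ε / 2) ((1 - 1 / A) / 2)
      linarith⟩
  set A' : ℝ := 1 / (1 / A + e1) with hA'
  have hA'0 : 0 < A' := by positivity
  have hA'1 : 1 < A' := by rw [hA', lt_div_iff₀ (by positivity)]; linarith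
  have hA'A : A' < A := by
    rw [hA', div_lt_iff₀ (by positivity)]
    have : A * (1 / A + e1) = 1 + A * e1 := by field_simp
    rw [this]
    nlinarith
  have hiA' : 1 / A' = 1 / A + e1 := by rw [hA', one_div_one_div]
  obtain ⟨K0, hK0, hrank⟩ := Dq_rank A' (ε / 2) hA'1 (by positivity)
  set α : ℝ := 1 / A + ε with hα
  have hα0 : 0 < α := by positivity
  obtain ⟨X0, hX0⟩ : ∃ X0 : ℕ, ∀ X : ℕ, X0 ≤ X → 4 ≤ X ∧ (log X) ^ A' ≤ (log ((X : ℝ) / 2)) ^ A := by
    have h1 : Filter.Tendsto (fun t : ℝ => t ^ (A - A')) Filter.atTop Filter.atTop :=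
      tendsto_rpow_atTop (by linarith)
    have h2 := (h1.comp tendsto_log_atTop).eventually_ge_atTop ((2 : ℝ) ^ A)
    obtain ⟨Y, hY⟩ := Filter.eventually_atTop.1 h2
    refine ⟨max 4 ⌈Y⌉₊, fun X hX => ⟨(le_max_left _ _).trans hX, ?_⟩⟩
    have hX4 : (4 : ℝ) ≤ X := by exact_mod_cast (le_max_left _ _).trans hX
    have h3 : (2 : ℝ) ^ A ≤ (log (X : ℝ)) ^ (A - A') :=
      hY X (Nat.ceil_le.1 ((le_max_right _ _).trans hX))
    have hlog : 0 < log (X : ℝ) := log_pos (by linarith)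
    have h4 : log (X : ℝ) / 2 ≤ log ((X : ℝ) / 2) := by
      rw [log_div (by positivity) (by norm_num)]
      have h5 : log 4 ≤ log (X : ℝ) := log_le_log (by norm_num) hX4
      have h6 : log (4 : ℝ) = 2 * log 2 := by
        rw [show (4 : ℝ) = 2 ^ 2 by norm_num, log_pow]; norm_num
      linarith
    calc (log (X : ℝ)) ^ A' = (log (X : ℝ)) ^ A' * 2 ^ A / 2 ^ A := by field_simp
      _ ≤ (log (X : ℝ)) ^ A' * (log (X : ℝ)) ^ (A - A') / 2 ^ A := by gcongr
      _ = (log (X : ℝ) / 2) ^ A := by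
          rw [← rpow_add hlog, div_rpow hlog.le (by norm_num)]
          congr 2
          ring
      _ ≤ _ := rpow_le_rpow (by positivity) h4 hA0.le
  have h2α : (2 : ℝ) ^ (-α) < 1 := rpow_lt_one_of_one_lt_of_neg (by norm_num) (by linarith)
  have h2α0 : (0 : ℝ) < (2 : ℝ) ^ (-α) := by positivity
  set K : ℝ := X0 + K0 / (1 - (2 : ℝ) ^ (-α)) + 1 with hK
  have hfrac : 0 ≤ K0 / (1 - (2 : ℝ) ^ (-α)) := div_nonneg hK0.le (by linarith)
  have hKpos : 0 < K := by positivity
  refine ⟨K, hKpos, ?_⟩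
  intro X
  induction X using Nat.strong_induction_on with
  | _ X ih =>
    rcases Nat.eq_zero_or_pos X with h0 | h0
    · rw [h0]
      simp
      positivity
    · have hX1 : (1 : ℝ) ≤ X := by exact_mod_cast h0
      have hXα : 1 ≤ (X : ℝ) ^ α := one_le_rpow hX1 hα0.le
      rcases Nat.lt_or_ge X X0 with h | h
      · have h1 : (((Icc 1 X).filter (GA A)).card : ℝ) ≤ X := by
          have : ((Icc 1 X).filter (GA A)).card ≤ X := by
            refine (card_filter_le _ _).trans ?_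
            simp
          exact_mod_cast this
        have h2 : (X : ℝ) ≤ X0 := by exact_mod_cast h.le
        calc (((Icc 1 X).filter (GA A)).card : ℝ) ≤ X0 := h1.trans h2
          _ ≤ K * 1 := by rw [hK]; linarith
          _ ≤ _ := mul_le_mul_of_nonneg_left hXα hKpos.le
      · obtain ⟨g1, g2⟩ := hX0 X h
        have hhalf : X / 2 < X := Nat.div_lt_self h0 (by norm_num)
        have h3 : (Icc 1 X).filter (GA A) ⊆ (Icc 1 (X / 2)).filter (GA A) ∪
            (Dq A' X).filter (fun m => m ≤ X) := by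
          intro m hm
          rw [mem_filter, mem_Icc] at hm
          rw [mem_union]
          by_cases hm2 : m ≤ X / 2
          · left
            rw [mem_filter, mem_Icc]
            exact ⟨⟨hm.1.1, hm2⟩, hm.2⟩
          · right
            rw [mem_filter, mem_Dq]
            refine ⟨⟨hm.1, hm.2.1, hm.2.2.1, ?_⟩, hm.1.2⟩
            intro ℓ hℓ
            rw [mem_opr] at hℓ
            apply hm.2.2.2 ℓ hℓ.1 hℓ.2.2
            have h5 : (ℓ : ℝ) ≤ (log (X : ℝ)) ^ A' := by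
              have h6 : (ℓ : ℝ) ≤ (⌊(log (X : ℝ)) ^ A'⌋₊ : ℝ) := by exact_mod_cast hℓ.2.1
              exact h6.trans (Nat.floor_le (rpow_nonneg (log_natCast_nonneg X) _))
            refine (h5.trans g2).trans ?_
            have h7 : (X : ℝ) / 2 ≤ m := by
              have : X ≤ 2 * m := by omega
              have : (X : ℝ) ≤ 2 * m := by exact_mod_cast this
              linarith
            have hX4 : (4 : ℝ) ≤ X := by exact_mod_cast g1
            apply rpow_le_rpow (log_nonneg (by linarith)) _ hA0.le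
            exact log_le_log (by linarith) h7
        have h4 := (card_le_card h3).trans (card_union_le _ _)
        have h5 : (((Icc 1 X).filter (GA A)).card : ℝ) ≤
            (((Icc 1 (X / 2)).filter (GA A)).card : ℝ) +
              (((Dq A' X).filter (fun m => m ≤ X)).card : ℝ) := by exact_mod_cast h4
        have h6 := ih (X / 2) hhalf
        have h7 := hrank X X h0 le_rfl
        have h8 : (X : ℝ) ^ (1 / A' + ε / 2) ≤ (X : ℝ) ^ α := by
          apply rpow_le_rpow_of_exponent_le hX1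
          rw [hiA', hα]
          linarith
        have h9 : ((X / 2 : ℕ) : ℝ) ^ α ≤ (X : ℝ) ^ α * 2 ^ (-α) := by
          calc ((X / 2 : ℕ) : ℝ) ^ α ≤ ((X : ℝ) / 2) ^ α := by
                apply rpow_le_rpow (by positivity) _ hα0.le
                exact Nat.cast_div_le
            _ = _ := by
                rw [div_rpow (by positivity) (by norm_num), rpow_neg (by norm_num)]
                rfl
        have h10 : K0 ≤ K * (1 - (2 : ℝ) ^ (-α)) := by
          have hK2 : K0 / (1 - (2 : ℝ) ^ (-α)) ≤ K := by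
            rw [hK]
            have : (0 : ℝ) ≤ X0 := by positivity
            linarith
          have hpos : 0 < 1 - (2 : ℝ) ^ (-α) := by linarith
          rwa [div_le_iff₀ hpos] at hK2
        calc (((Icc 1 X).filter (GA A)).card : ℝ)
            ≤ K * ((X / 2 : ℕ) : ℝ) ^ α + K0 * (X : ℝ) ^ (1 / A' + ε / 2) := by linarith
          _ ≤ K * ((X : ℝ) ^ α * 2 ^ (-α)) + K * (1 - (2 : ℝ) ^ (-α)) * (X : ℝ) ^ α := by
              gcongr
          _ = K * (X : ℝ) ^ α := by ring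

theorem GA_sum (A ε : ℝ) (hA : 1 < A) (hε : 0 < ε) (hε1 : 1 / A + ε < 1) :
    ∃ K : ℝ, 0 < K ∧ ∀ (S : Finset ℕ) (M : ℝ), 1 ≤ M → (∀ m ∈ S, GA A m ∧ M ≤ m) →
      ∑ m ∈ S, (1 : ℝ) / m ≤ K * M ^ (-(1 - 1 / A - ε)) := by
  obtain ⟨K, hK, hc⟩ := GA_count A (ε / 2) hA (by positivity)
  have hA0 : 0 < A := by linarith
  have hα0 : 0 < 1 / A + ε / 2 := by positivity
  refine ⟨K ^ ((1 / A + ε) / (1 / A + ε / 2)) *
    ∑' k : ℕ, (k : ℝ) ^ (-((1 / A + ε) / (1 / A + ε / 2))) + 1, ?_, ?_⟩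
  · have : 0 ≤ ∑' k : ℕ, (k : ℝ) ^ (-((1 / A + ε) / (1 / A + ε / 2))) :=
      tsum_nonneg fun k => by positivity
    positivity
  · intro S M hM hS
    have h1 : ∑ q ∈ S, (q : ℝ) ^ (-(1 / A + ε)) ≤ K ^ ((1 / A + ε) / (1 / A + ε / 2)) *
        ∑' k : ℕ, (k : ℝ) ^ (-((1 / A + ε) / (1 / A + ε / 2))) := by
      apply rank_sum S K (1 / A + ε / 2) (1 / A + ε) hK hα0 (by linarith)
      · intro q hq
        have := (hS q hq).2
        have h2 : (1 : ℝ) ≤ q := hM.trans this
        exact_mod_cast h2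
      · intro q hq
        refine le_trans ?_ (hc q)
        have : (S.filter (fun q' => q' ≤ q)) ⊆ (Icc 1 q).filter (GA A) := by
          intro m hm
          rw [mem_filter] at hm
          rw [mem_filter, mem_Icc]
          have h3 := hS m hm.1
          have h4 : (1 : ℝ) ≤ m := hM.trans h3.2
          exact ⟨⟨by exact_mod_cast h4, hm.2⟩, h3.1⟩
        exact_mod_cast card_le_card this
    have h2 : ∀ m ∈ S, (1 : ℝ) / m ≤ M ^ (-(1 - 1 / A - ε)) * (m : ℝ) ^ (-(1 / A + ε)) := by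
      intro m hm
      have h3 := (hS m hm).2
      have hm0 : (0 : ℝ) < m := by linarith
      have e : (1 : ℝ) / m = (m : ℝ) ^ (-(1 - 1 / A - ε)) * (m : ℝ) ^ (-(1 / A + ε)) := by
        rw [← rpow_add hm0, one_div, ← rpow_neg_one]
        congr 1
        ring
      rw [e]
      apply mul_le_mul_of_nonneg_right _ (by positivity)
      exact rpow_le_rpow_of_nonpos (by linarith) h3 (by linarith)
    calc ∑ m ∈ S, (1 : ℝ) / m ≤ ∑ m ∈ S, M ^ (-(1 - 1 / A - ε)) * (m : ℝ) ^ (-(1 / A + ε)) :=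
          sum_le_sum h2
      _ = M ^ (-(1 - 1 / A - ε)) * ∑ m ∈ S, (m : ℝ) ^ (-(1 / A + ε)) := by rw [mul_sum]
      _ ≤ M ^ (-(1 - 1 / A - ε)) * (K ^ ((1 / A + ε) / (1 / A + ε / 2)) *
          ∑' k : ℕ, (k : ℝ) ^ (-((1 / A + ε) / (1 / A + ε / 2))) + 1) := by
          apply mul_le_mul_of_nonneg_left _ (by positivity)
          linarith
      _ = _ := by ring

end Pool.Agent.Q122.WS
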