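import Pool.Agent.Q122.WS.GSet
import Pool.Agent.Q122.TF.SegsFin

/-! Few values of a polynomial in an interval have symbol one at all small primes. -/

set_option autoImplicit false

namespace Pool.Agent.Q122.WS

open Finset Real Polynomial
open scoped Classical
open Pool.Agent.W57.SW Pool.Agent.H379R2.W Pool.Agent.Q122.TF

theorem pq_univ (y : ℕ) : PQ Set.univ y = pr y := by
  ext p
  rw [mem_PQ, mem_pr]
  simp

theorem thick_univ : ∃ κ : ℝ, 0 < κ ∧ ∃ y0 : ℕ, ∀ y : ℕ, y0 ≤ y →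
    κ * (y : ℝ) ^ (1 : ℝ) ≤ (PQ Set.univ y).card * Real.log y := by
  have h1 : ∀ᶠ t : ℝ in Filter.atTop, ‖log t‖ ≤ 1 / 16 * ‖t‖ := isLittleO_log_id_atTop.def (by norm_num)
  obtain ⟨Y, hY⟩ := Filter.eventually_atTop.1 (h1.and (Filter.eventually_ge_atTop 1))
  refine ⟨1 / 2, by norm_num, ⌈Y⌉₊, fun y hy => ?_⟩
  have hy' : Y ≤ (y : ℝ) + 1 := by
    have := Nat.ceil_le.1 hy
    linarith
  obtain ⟨h2, h3⟩ := hY _ hy'
  obtain ⟨-, h4⟩ := hY _ (Nat.ceil_le.1 hy)
  rw [norm_of_nonneg (log_nonneg (by linarith)), norm_of_nonneg (by linarith)] at h2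
  have h5 := primeCounting_low (y := y)
  rw [pq_univ, card_pr, rpow_one]
  have h6 := log_two_gt_d9
  nlinarith

theorem card_pr_ge {y : ℕ} (hy : 11 ≤ y) : 5 ≤ (pr y).card := by
  have h : ({2, 3, 5, 7, 11} : Finset ℕ) ⊆ pr y := by
    intro p hp
    rw [mem_pr]
    simp only [mem_insert, mem_singleton] at hp
    rcases hp with rfl | rfl | rfl | rfl | rfl <;> exact ⟨by norm_num, by omega⟩
  exact (card_le_card h)

/-- reciprocity -/
theorem spp_of {q p : ℕ} (hq : Odd q) (hp : p.Prime) (hp2 : p ≠ 2)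
    (h : jacobiSym (p : ℤ) q = 1) :
    (q % 4 = 1 → Spp (q : ℤ) p) ∧ (q % 4 = 3 → Spp (-(q : ℤ)) p) := by
  have hpo : Odd p := hp.odd_of_ne_two hp2
  constructor
  · intro h4
    have h5 : jacobiSym (q : ℤ) p = 1 := by
      rw [jacobiSym.quadratic_reciprocity_one_mod_four h4 hpo, h]
    exact (Pool.Agent.TH869.EVF.split_iff (q : ℤ) (Or.inr (by omega)) p hp hp2).2 h5
  · intro h4
    have h5 : jacobiSym (-(q : ℤ)) p = 1 := by
      rw [jacobiSym.neg _ hpo]
      rcases Nat.odd_mod_four_iff.1 (Nat.odd_iff.1 hpo) with h6 | h6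
      · rw [ZMod.χ₄_nat_one_mod_four h6, one_mul,
          ← jacobiSym.quadratic_reciprocity_one_mod_four h6 hq, h]
      · rw [ZMod.χ₄_nat_three_mod_four h6,
          jacobiSym.quadratic_reciprocity_three_mod_four h4 h6, h]
        norm_num
    exact (Pool.Agent.TH869.EVF.split_iff (-(q : ℤ)) (Or.inr (by omega)) p hp hp2).2 h5

/-- for a large `q` in the set the primes up to `(log q) ^ A` are not equidistributed -/
theorem not_good (a A c : ℝ) (ha0 : 0 < a) (ha : a < A) (hc : 0 < c) : ∃ Q0 : ℝ, 1 ≤ Q0 ∧ ∀ (q L : ℕ),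
    Q0 ≤ q → GA A q → (q % 4 = 1 → ¬ GoodV Set.univ a c (1 / 2) L (q : ℤ)) ∧
      (q % 4 = 3 → ¬ GoodV Set.univ a c (1 / 2) L (-(q : ℤ))) := by
  have hA0 : 0 < A := by linarith
  have h1 : ∀ᶠ t : ℝ in Filter.atTop, t ^ a + 12 ≤ t ^ A ∧ t ^ A ≤ exp (c * t) := by
    have e1 : Filter.Tendsto (fun t : ℝ => t ^ (A - a)) Filter.atTop Filter.atTop :=
      tendsto_rpow_atTop (by linarith)
    have e2 : ∀ᶠ t : ℝ in Filter.atTop, ‖t ^ A‖ ≤ 1 * ‖exp (c * t)‖ :=
      (isLittleO_rpow_exp_pos_mul_atTop A hc).bound one_pos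
    filter_upwards [e1.eventually_ge_atTop 13, e2, Filter.eventually_ge_atTop 1] with t f1 f2 f3
    have ht0 : 0 < t := by linarith
    rw [norm_of_nonneg (by positivity), norm_of_nonneg (exp_pos _).le, one_mul] at f2
    refine ⟨?_, f2⟩
    have f4 : 1 ≤ t ^ a := one_le_rpow f3 ha0.le
    have f5 : t ^ A = t ^ a * t ^ (A - a) := by rw [← rpow_add ht0]; congr 1; ring
    rw [f5]
    nlinarith
  obtain ⟨t0, ht0⟩ := Filter.eventually_atTop.1 h1
  refine ⟨exp (max t0 1), one_le_exp (by positivity), ?_⟩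
  intro q L hq hG
  have hexp : 0 < exp (max t0 1) := exp_pos _
  have hq0 : (0 : ℝ) < q := by linarith
  have hlog : max t0 1 ≤ log (q : ℝ) := by
    rw [le_log_iff_exp_le hq0]; exact hq
  have hl0 : 0 < log (q : ℝ) := by
    have := le_max_right t0 1
    linarith
  obtain ⟨g1, g2⟩ := ht0 _ ((le_max_left _ _).trans hlog)
  have g3 : (log (q : ℝ)) ^ A ≤ (q : ℝ) ^ c := by
    rw [rpow_def_of_pos hq0, mul_comm (log (q : ℝ)) c]
    exact g2
  set y : ℕ := ⌊(log (q : ℝ)) ^ A⌋₊ with hy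
  have hy1 : (y : ℝ) ≤ (log (q : ℝ)) ^ A := Nat.floor_le (by positivity)
  have hy2 : (log (q : ℝ)) ^ A < y + 1 := Nat.lt_floor_add_one _
  have hy3 : (log (q : ℝ)) ^ a ≤ y := by linarith
  have hy11 : 11 ≤ y := by
    have : (11 : ℝ) ≤ y := by
      have : 0 ≤ (log (q : ℝ)) ^ a := by positivity
      linarith
    exact_mod_cast this
  have hyc : (y : ℝ) ≤ (q : ℝ) ^ c := hy1.trans g3
  have hcard := card_pr_ge hy11
  have key : ∀ d : ℤ, |(d : ℝ)| = q → (∀ p ∈ pr y, p ≠ 2 → Spp d p) →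
      ((d % 4 = 1 ∧ Squarefree d) ∨
        (∃ m : ℤ, d = 4 * m ∧ (m % 4 = 2 ∨ m % 4 = 3) ∧ Squarefree m)) →
      ¬ GoodV Set.univ a c (1 / 2) L d := by
    intro d hd hspp hfund hgood
    obtain ⟨-, h3⟩ := hgood
    obtain ⟨-, h4⟩ := h3 d hfund ⟨d, rfl⟩
    rw [hd] at h4
    have h5 := h4 y hy3 hyc
    rw [pq_univ] at h5
    have h6 : (pr y).card ≤ ((pr y).filter (fun p => Spp d p)).card + 1 := by
      have h7 : pr y ⊆ ((pr y).filter (fun p => Spp d p)) ∪ {2} := by
        intro p hp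
        rw [mem_union, mem_filter, mem_singleton]
        by_cases hp2 : p = 2
        · exact Or.inr hp2
        · exact Or.inl ⟨hp, hspp p hp hp2⟩
      have h8 := (card_le_card h7).trans (card_union_le _ _)
      rwa [card_singleton] at h8
    have h7 : ((pr y).card : ℝ) ≤ (((pr y).filter (fun p => Spp d p)).card : ℝ) + 1 := by
      exact_mod_cast h6
    have h8 := (abs_le.1 h5).2
    have h9 : (5 : ℝ) ≤ (pr y).card := by exact_mod_cast hcard
    linarith
  have hsym : ∀ p ∈ pr y, p ≠ 2 → jacobiSym (p : ℤ) q = 1 := by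
    intro p hp hp2
    rw [mem_pr] at hp
    apply hG.2.2 p hp.1 hp2
    have : (p : ℝ) ≤ y := by exact_mod_cast hp.2
    linarith
  constructor
  · intro h4
    apply key (q : ℤ)
    · push_cast
      exact abs_of_pos hq0
    · intro p hp hp2
      exact (spp_of hG.1 (mem_pr.1 hp).1 hp2 (hsym p hp hp2)).1 h4
    · left
      exact ⟨by omega, Int.squarefree_natCast.2 hG.2.1⟩
  · intro h4
    apply key (-(q : ℤ))
    · push_cast
      rw [abs_neg]
      exact abs_of_pos hq0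
    · intro p hp hp2
      exact (spp_of hG.1 (mem_pr.1 hp).1 hp2 (hsym p hp hp2)).2 h4
    · left
      refine ⟨by omega, ?_⟩
      have h5 : Squarefree (q : ℤ) := Int.squarefree_natCast.2 hG.2.1
      exact (Associated.squarefree_iff (Associated.neg_left (Associated.refl (q : ℤ)))).2 h5

/-- the values in the set -/
noncomputable def vals (A : ℝ) (g : ℤ[X]) (B : ℤ) (L : ℕ) : Finset ℤ :=
  (Ioc B (B + L)).filter (fun s => ∃ q : ℕ, g.eval s = q ∧ GA A q)

theorem mach (D : ℕ) (hD : 1 ≤ D) (A τ ε : ℝ) (hA : 1 < A) (hτ : 0 < τ) (hε : 0 < ε) :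
    ∃ K : ℝ, 0 < K ∧ ∀ (g : ℤ[X]) (B : ℤ) (L : ℕ), 1 ≤ L → 1 ≤ g.natDegree → g.natDegree ≤ D →
      Squarefree (g.map (Int.castRingHom ℚ)) → (∀ i, |(g.coeff i : ℝ)| ^ τ ≤ L) →
      |(B : ℝ)| ^ τ ≤ L →
      ((vals A g B L).card : ℝ) ≤ K * (L : ℝ) ^ (1 / 2 + 1 / (2 * A) + ε) := by
  have hA0 : 0 < A := by linarith
  obtain ⟨a, ha1, haA, hae⟩ : ∃ a : ℝ, 1 < a ∧ a < A ∧ 1 / (2 * a) ≤ 1 / (2 * A) + ε / 2 := by
    have hiA : 1 / A < 1 := by rw [div_lt_one hA0]; exact hA
    have hiA0 : 0 < 1 / A := by positivity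
    obtain ⟨e1, he10, he11, he12⟩ : ∃ e1 : ℝ, 0 < e1 ∧ e1 ≤ ε ∧ 1 / A + e1 < 1 :=
      ⟨min ε ((1 - 1 / A) / 2), lt_min (by linarith) (by linarith), min_le_left _ _, by
        have := min_le_right ε ((1 - 1 / A) / 2)
        linarith⟩
    refine ⟨1 / (1 / A + e1), ?_, ?_, ?_⟩
    · rw [lt_div_iff₀ (by positivity)]; linarith
    · rw [div_lt_iff₀ (by positivity)]
      have : A * (1 / A + e1) = 1 + A * e1 := by field_simp
      rw [this]
      nlinarith
    · have e : 1 / (2 * (1 / (1 / A + e1))) = (1 / A + e1) / 2 := by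
        field_simp
      rw [e]
      have e2 : 1 / (2 * A) = 1 / A / 2 := by field_simp
      rw [e2]
      linarith
  obtain ⟨c, K, hc, hK, h⟩ := segs D hD a 1 τ (1 / 2) (ε / 2) Set.univ le_rfl (by linarith)
    (by linarith) hτ (by norm_num) (by positivity) thick_univ
  obtain ⟨Q0, hQ0, hng⟩ := not_good a A c (by linarith) haA hc
  set L0 : ℝ := Q0 ^ (1 / c) with hL0
  have hL01 : 1 ≤ L0 := one_le_rpow hQ0 (by positivity)
  refine ⟨2 * K + L0, by positivity, ?_⟩
  intro g B L hL h1 h2 h3 h4 h5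
  have hLr : (1 : ℝ) ≤ L := by exact_mod_cast hL
  have hexp : (0 : ℝ) ≤ 1 / 2 + 1 / (2 * A) + ε := by positivity
  have hLp : 1 ≤ (L : ℝ) ^ (1 / 2 + 1 / (2 * A) + ε) := one_le_rpow hLr hexp
  rcases lt_or_ge (L : ℝ) L0 with hlt | hge
  · have e1 : ((vals A g B L).card : ℝ) ≤ L := by
      have e2 : (vals A g B L).card ≤ (Ioc B (B + L)).card := card_filter_le _ _
      rw [Int.card_Ioc] at e2
      have e3 : (B + L - B).toNat = L := by omega
      rw [e3] at e2
      exact_mod_cast e2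
    calc ((vals A g B L).card : ℝ) ≤ L0 * 1 := by linarith
      _ ≤ (2 * K + L0) * (L : ℝ) ^ (1 / 2 + 1 / (2 * A) + ε) := by
          apply mul_le_mul _ hLp zero_le_one (by positivity)
          linarith
  · obtain ⟨E1, -, hE1, hE1'⟩ := h g B L hL h1 h2 h3 h4 h5
    obtain ⟨E2, -, hE2, hE2'⟩ := h (-g) B L hL (by rwa [natDegree_neg]) (by rwa [natDegree_neg])
      (by
        rw [Polynomial.map_neg]
        exact (Associated.squarefree_iff (Associated.neg_left (Associated.refl _))).2 h3)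
      (by
        intro i
        rw [coeff_neg]
        push_cast
        rw [abs_neg]
        exact h4 i) h5
    have hsub : vals A g B L ⊆ E1 ∪ E2 := by
      intro s hs
      rw [vals, mem_filter] at hs
      obtain ⟨hs1, q, hq, hG⟩ := hs
      rw [mem_union]
      by_contra hcon
      push Not at hcon
      have g1 := hE1' s hs1 hcon.1
      have g2 := hE2' s hs1 hcon.2
      rw [eval_neg, hq] at g2
      rw [hq] at g1
      have hqodd := hG.1
      have hq4 : q % 4 = 1 ∨ q % 4 = 3 := Nat.odd_mod_four_iff.1 (Nat.odd_iff.1 hqodd)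
      have hlow : (L : ℝ) ^ c ≤ q := by
        rcases hq4 with h6 | h6
        · have := (g1.2 (q : ℤ) (Or.inl ⟨by omega, Int.squarefree_natCast.2 hG.2.1⟩)
            ⟨(q : ℤ), rfl⟩).1
          push_cast at this
          rwa [abs_of_nonneg (by positivity)] at this
        · have := (g2.2 (-(q : ℤ)) (Or.inl ⟨by omega,
            (Associated.squarefree_iff (Associated.neg_left (Associated.refl (q : ℤ)))).2
              (Int.squarefree_natCast.2 hG.2.1)⟩) ⟨-(q : ℤ), rfl⟩).1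
          push_cast at this
          rwa [abs_neg, abs_of_nonneg (by positivity)] at this
      have hQ : Q0 ≤ q := by
        refine le_trans ?_ hlow
        calc Q0 = (Q0 ^ (1 / c)) ^ c := by
              rw [← rpow_mul (by linarith), one_div_mul_cancel hc.ne', rpow_one]
          _ ≤ (L : ℝ) ^ c := rpow_le_rpow (by positivity) hge hc.le
      obtain ⟨n1, n2⟩ := hng q L hQ hG
      rcases hq4 with h6 | h6
      · exact n1 h6 g1
      · exact n2 h6 g2
    have hcardE : ((vals A g B L).card : ℝ) ≤ E1.card + E2.card := by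
      exact_mod_cast (card_le_card hsub).trans (card_union_le _ _)
    have hpe : (L : ℝ) ^ (1 - 1 / 2 + 1 / (2 * a) + ε / 2) ≤
        (L : ℝ) ^ (1 / 2 + 1 / (2 * A) + ε) := by
      apply rpow_le_rpow_of_exponent_le hLr
      linarith
    calc ((vals A g B L).card : ℝ) ≤ E1.card + E2.card := hcardE
      _ ≤ K * (L : ℝ) ^ (1 - 1 / 2 + 1 / (2 * a) + ε / 2) +
          K * (L : ℝ) ^ (1 - 1 / 2 + 1 / (2 * a) + ε / 2) := add_le_add hE1 hE2
      _ ≤ K * (L : ℝ) ^ (1 / 2 + 1 / (2 * A) + ε) + K * (L : ℝ) ^ (1 / 2 + 1 / (2 * A) + ε) := by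
          gcongr
      _ ≤ _ := by
          have : 0 ≤ L0 * (L : ℝ) ^ (1 / 2 + 1 / (2 * A) + ε) := by positivity
          nlinarith

end Pool.Agent.Q122.WS
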