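import Pool.Agent.Q122.WS.Struct

/-! The values which have a divisor in the set. -/

set_option autoImplicit false

namespace Pool.Agent.Q122.WS

open Finset Real Polynomial
open scoped Classical
open Pool.Agent.W57.SW Pool.Agent.H379R2.W

theorem part_b (D : ℕ) (A e l : ℝ) (hA : 2 ≤ A) (he : 0 < e) (he1 : 1 / A + e < 1) :
    ∃ K : ℝ, 0 < K ∧ ∀ (f : ℤ[X]) (B : ℤ) (T : ℕ), 1 ≤ T → f.natDegree ≤ D →
      (∀ p : ℕ, p.Prime → ∃ i, ¬ (p : ℤ) ∣ f.coeff i) → ∀ M : ℝ, 1 ≤ M →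
        (((Ioc B (B + T)).filter (fun t => ∃ m : ℕ, (m : ℤ) ∣ f.eval t ∧ GA A m ∧ M ≤ m ∧
          (m : ℝ) ≤ (T : ℝ) ^ l)).card : ℝ) ≤
          K * (T : ℝ) ^ (l * e) * (T * M ^ (-(1 - 1 / A - e)) + (T : ℝ) ^ (l * (1 / A + e))) := by
  obtain ⟨C, hC, hcnt⟩ := cnt_dvd D e he
  obtain ⟨K1, hK1, hsum⟩ := GA_sum A e (by linarith) he he1
  obtain ⟨K2, hK2, hcount⟩ := GA_count A e (by linarith) he
  have hA0 : 0 < A := by linarith
  refine ⟨C * max K1 K2, by positivity, ?_⟩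
  intro f B T hT hfD hprim M hM
  have hTr : (1 : ℝ) ≤ T := by exact_mod_cast hT
  have hT0 : (0 : ℝ) < T := by linarith
  set X : ℕ := ⌊(T : ℝ) ^ l⌋₊ with hX
  have hXle : (X : ℝ) ≤ (T : ℝ) ^ l := Nat.floor_le (by positivity)
  set G : Finset ℕ := (Icc 1 X).filter (fun m => GA A m ∧ M ≤ m) with hG
  have hcover : (Ioc B (B + T)).filter (fun t => ∃ m : ℕ, (m : ℤ) ∣ f.eval t ∧ GA A m ∧ M ≤ m ∧
      (m : ℝ) ≤ (T : ℝ) ^ l) ⊆ G.biUnion (fun m => (Ioc B (B + T)).filter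
        (fun t => (m : ℤ) ∣ f.eval t)) := by
    intro t ht
    rw [mem_filter] at ht
    obtain ⟨ht1, m, h1, h2, h3, h4⟩ := ht
    rw [mem_biUnion]
    refine ⟨m, ?_, ?_⟩
    · rw [hG, mem_filter, mem_Icc]
      have h5 : (1 : ℝ) ≤ m := hM.trans h3
      exact ⟨⟨by exact_mod_cast h5, Nat.le_floor h4⟩, h2, h3⟩
    · rw [mem_filter]
      exact ⟨ht1, h1⟩
  have hcard := (card_le_card hcover).trans card_biUnion_le
  have hGs : ∑ m ∈ G, (1 : ℝ) / m ≤ K1 * M ^ (-(1 - 1 / A - e)) := by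
    apply hsum G M hM
    intro m hm
    rw [hG, mem_filter] at hm
    exact hm.2
  have hGc : (G.card : ℝ) ≤ K2 * (T : ℝ) ^ (l * (1 / A + e)) := by
    have h1 : G ⊆ (Icc 1 X).filter (GA A) := by
      intro m hm
      rw [hG, mem_filter] at hm
      rw [mem_filter]
      exact ⟨hm.1, hm.2.1⟩
    have h2 : (G.card : ℝ) ≤ (((Icc 1 X).filter (GA A)).card : ℝ) := by exact_mod_cast card_le_card h1
    refine h2.trans ((hcount X).trans ?_)
    rw [rpow_mul hT0.le]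
    gcongr
  calc (((Ioc B (B + T)).filter (fun t => ∃ m : ℕ, (m : ℤ) ∣ f.eval t ∧ GA A m ∧ M ≤ m ∧
          (m : ℝ) ≤ (T : ℝ) ^ l)).card : ℝ)
      ≤ ∑ m ∈ G, (((Ioc B (B + T)).filter (fun t => (m : ℤ) ∣ f.eval t)).card : ℝ) := by
        exact_mod_cast hcard
    _ ≤ ∑ m ∈ G, C * (T : ℝ) ^ (l * e) * (T * (1 / m) + 1) := by
        refine sum_le_sum fun m hm => ?_
        rw [hG, mem_filter, mem_Icc] at hm
        have hm0 : (0 : ℝ) < m := by
          have : (1 : ℝ) ≤ m := by exact_mod_cast hm.1.1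
          linarith
        refine (hcnt f m B T hfD hm.2.1.2.1 (fun p hp _ => hprim p hp)).trans ?_
        have h1 : (m : ℝ) ^ e ≤ (T : ℝ) ^ (l * e) := by
          rw [rpow_mul hT0.le]
          apply rpow_le_rpow hm0.le _ he.le
          have : (m : ℝ) ≤ X := by exact_mod_cast hm.1.2
          linarith
        have h2 : (T : ℝ) / m = T * (1 / m) := by ring
        rw [h2]
        gcongr
    _ = C * (T : ℝ) ^ (l * e) * (T * ∑ m ∈ G, (1 : ℝ) / m + G.card) := by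
        rw [← mul_sum, sum_add_distrib, ← mul_sum, sum_const, nsmul_eq_mul, mul_one]
    _ ≤ C * (T : ℝ) ^ (l * e) * (T * (K1 * M ^ (-(1 - 1 / A - e))) +
          K2 * (T : ℝ) ^ (l * (1 / A + e))) := by gcongr
    _ ≤ C * (T : ℝ) ^ (l * e) * (T * (max K1 K2 * M ^ (-(1 - 1 / A - e))) +
          max K1 K2 * (T : ℝ) ^ (l * (1 / A + e))) := by
        gcongr
        · exact le_max_left _ _
        · exact le_max_right _ _
    _ = _ := by ring

theorem part_0 (D : ℕ) (A e v : ℝ) (hA : 2 ≤ A) (he : 0 < e) :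
    ∃ K : ℝ, 0 < K ∧ ∀ (f : ℤ[X]) (B : ℤ) (T : ℕ), 1 ≤ T → 1 ≤ f.natDegree → f.natDegree ≤ D →
        (((Ioc B (B + T)).filter (fun t => ∃ n : ℕ, f.eval t = n ∧ Bd A n ∧
          (n : ℝ) < (T : ℝ) ^ v)).card : ℝ) ≤ K * (T : ℝ) ^ (v * (1 / A + e)) := by
  obtain ⟨K, hK, hc⟩ := bd_count A e hA he
  have hA0 : 0 < A := by linarith
  refine ⟨(D + 1) * K, by positivity, ?_⟩
  intro f B T hT hf1 hfD
  have hTr : (1 : ℝ) ≤ T := by exact_mod_cast hT
  have hT0 : (0 : ℝ) < T := by linarith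
  set S := (Ioc B (B + T)).filter (fun t => ∃ n : ℕ, f.eval t = n ∧ Bd A n ∧
          (n : ℝ) < (T : ℝ) ^ v) with hS
  set X : ℕ := ⌊(T : ℝ) ^ v⌋₊ with hX
  have hXle : (X : ℝ) ≤ (T : ℝ) ^ v := Nat.floor_le (by positivity)
  have h1 : S.card ≤ D * (S.image (fun t => (f.eval t).toNat)).card := by
    apply card_le_mul_card_image
    intro b _
    refine (card_le_card ?_).trans (fiber f D hf1 hfD S (b : ℤ))
    intro t ht
    rw [mem_filter] at ht ⊢
    refine ⟨ht.1, ?_⟩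
    have h2 := ht.1
    rw [hS, mem_filter] at h2
    obtain ⟨-, n, h3, -⟩ := h2
    have h4 := ht.2
    rw [h3, Int.toNat_natCast] at h4
    rw [h3, h4]
  have h2 : S.image (fun t => (f.eval t).toNat) ⊆ (Icc 1 X).filter (Bd A) := by
    intro n hn
    rw [mem_image] at hn
    obtain ⟨t, ht, hn⟩ := hn
    rw [hS, mem_filter] at ht
    obtain ⟨-, k, h3, h4, h5⟩ := ht
    rw [h3, Int.toNat_natCast] at hn
    subst hn
    rw [mem_filter, mem_Icc]
    have := h4.1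
    exact ⟨⟨by omega, Nat.le_floor h5.le⟩, h4⟩
  rcases Nat.eq_zero_or_pos X with h0 | h0
  · have h3 : S.image (fun t => (f.eval t).toNat) = ∅ := by
      rw [← subset_empty]
      refine h2.trans ?_
      rw [h0]
      intro x hx
      simp at hx
    rw [h3, card_empty, mul_zero] at h1
    have h4 : S.card = 0 := by omega
    rw [h4, Nat.cast_zero]
    positivity
  · have h3 := hc X h0
    have h4 : ((S.image (fun t => (f.eval t).toNat)).card : ℝ) ≤
        (((Icc 1 X).filter (Bd A)).card : ℝ) := by exact_mod_cast card_le_card h2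
    have h5 : (S.card : ℝ) ≤ D * ((S.image (fun t => (f.eval t).toNat)).card : ℝ) := by
      exact_mod_cast h1
    have h6 : (X : ℝ) ^ (1 / A + e) ≤ (T : ℝ) ^ (v * (1 / A + e)) := by
      rw [rpow_mul hT0.le]
      exact rpow_le_rpow (by positivity) hXle (by positivity)
    calc (S.card : ℝ) ≤ D * ((S.image (fun t => (f.eval t).toNat)).card : ℝ) := h5
      _ ≤ D * (K * (X : ℝ) ^ (1 / A + e)) := by
          gcongr
          exact h4.trans h3
      _ ≤ (D + 1) * (K * (T : ℝ) ^ (v * (1 / A + e))) := by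
          gcongr
          linarith
      _ = _ := by ring

end Pool.Agent.Q122.WS
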