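import Pool.Agent.Q122.WS.PartA
import Pool.Agent.Q122.WS.PartB

/-! The composite values of a polynomial without small witnesses. -/

set_option autoImplicit false

namespace Pool.Agent.Q122.WS

open Finset Real Polynomial
open scoped Classical
open Pool.Agent.W57.SW Pool.Agent.H379R2.W

/-- the exponent -/
noncomputable def expo (A θ : ℝ) : ℝ :=
  max ((A + 1) / (2 * A)) ((θ * (A - 1) + (A + 1)) / (A * (A + 1)))

theorem main (D : ℕ) (A θ τ ε : ℝ) (hD : 1 ≤ D) (hA : 2 ≤ A) (hθ : 0 < θ) (hθA : θ < A + 1)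
    (hτ : 0 < τ) (hε : 0 < ε) : ∃ K : ℝ, 0 < K ∧ ∀ (f : ℤ[X]) (B : ℤ) (T : ℕ), 1 ≤ T →
      1 ≤ f.natDegree → f.natDegree ≤ D → Squarefree (f.map (Int.castRingHom ℚ)) →
      (∀ p : ℕ, p.Prime → ∃ i, ¬ (p : ℤ) ∣ f.coeff i) →
      (∀ i, |(f.coeff i : ℝ)| ^ τ ≤ T) → |(B : ℝ)| ^ τ ≤ T →
      (∀ t ∈ Ioc B (B + T), ((f.eval t : ℤ) : ℝ) ≤ (T : ℝ) ^ θ) →
        (((Ioc B (B + T)).filter (fun t => ∃ n : ℕ, f.eval t = n ∧ Bd A n)).card : ℝ) ≤
          K * (T : ℝ) ^ (expo A θ + ε) := by
  have hA0 : 0 < A := by linarith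
  set x : ℝ := 1 - 1 / A with hx
  have hiA : 1 / A ≤ 1 / 2 := one_div_le_one_div_of_le (by norm_num) hA
  have hiA0 : 0 < 1 / A := by positivity
  have hx0 : 1 / 2 ≤ x := by rw [hx]; linarith
  have hx1 : x < 1 := by rw [hx]; linarith
  set κ : ℝ := max 0 ((2 * θ - A - 1) / (A + 1)) with hκ
  have hκ0 : 0 ≤ κ := le_max_left _ _
  have hκ1 : κ < 1 := by
    rw [hκ]
    apply max_lt one_pos
    rw [div_lt_one (by linarith)]
    linarith
  set σ : ℝ := 1 / 2 + 1 / (2 * A) with hσ
  have hσ' : σ = (A + 1) / (2 * A) := by rw [hσ]; field_simp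
  have hσ0 : 0 < σ := by positivity
  set E : ℝ := expo A θ with hE
  have hσE : σ ≤ E := by rw [hE, expo, hσ']; exact le_max_left _ _
  have hE2 : (θ * (A - 1) + (A + 1)) / (A * (A + 1)) ≤ E := by rw [hE, expo]; exact le_max_right _ _
  have hE0 : 0 < E := by linarith
  have hκE : σ + (1 - σ) * κ ≤ E := by
    rcases le_total ((2 * θ - A - 1) / (A + 1)) 0 with h | h
    · rw [hκ, max_eq_left h, mul_zero, add_zero]
      exact hσE
    · rw [hκ, max_eq_right h]
      refine le_trans (le_of_eq ?_) hE2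
      rw [hσ']
      field_simp
      ring
  have hlE : (θ - κ) / A ≤ E := by
    rcases le_total ((2 * θ - A - 1) / (A + 1)) 0 with h | h
    · rw [hκ, max_eq_left h, sub_zero]
      refine le_trans ?_ hσE
      rw [hσ', div_le_div_iff₀ hA0 (by positivity)]
      have h2 : 2 * θ - A - 1 ≤ 0 := by
        by_contra hcon
        push Not at hcon
        have : 0 < (2 * θ - A - 1) / (A + 1) := div_pos hcon (by linarith)
        linarith
      nlinarith
    · rw [hκ, max_eq_right h]
      refine le_trans (le_of_eq ?_) hE2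
      field_simp
      ring
  have hxσ : 1 - x ^ 2 ≤ σ := by
    rw [hx, hσ']
    rw [← sub_nonneg]
    have e : (A + 1) / (2 * A) - (1 - (1 - 1 / A) ^ 2) = (A - 1) * (A - 2) / (2 * A ^ 2) := by
      field_simp
      ring
    rw [e]
    apply div_nonneg _ (by positivity)
    nlinarith
  obtain ⟨e, he0, heε, hex⟩ : ∃ e : ℝ, 0 < e ∧ (2 * θ + 3) * e ≤ ε ∧ 1 / A + e < 1 := by
    refine ⟨min (ε / (2 * θ + 3)) (1 / 4), lt_min (by positivity) (by norm_num), ?_, ?_⟩
    · have := min_le_left (ε / (2 * θ + 3)) (1 / 4)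
      rw [le_div_iff₀ (by linarith)] at this
      linarith
    · have := min_le_right (ε / (2 * θ + 3)) (1 / 4)
      linarith
  have hθe : 0 ≤ θ * e := by positivity
  have hex' : e < x := by rw [hx]; linarith
  obtain ⟨N, hN⟩ := struct A e hA he0
  obtain ⟨K0, hK0, h0⟩ := part_0 D A e (2 - 1 / A) hA he0
  obtain ⟨K1, hK1, h1⟩ := mach D hD A τ e (by linarith) hτ he0
  obtain ⟨K2, T2, hK2, h2⟩ := part_a D A τ e κ hD (by linarith) hτ he0 hκ0 hκ1
  obtain ⟨K3, hK3, h3⟩ := part_b D A e (θ - κ) hA he0 hex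
  set T0 : ℝ := max (N : ℝ) (max T2 1) with hT0
  have hT01 : 1 ≤ T0 := (le_max_right _ _).trans (le_max_right _ _)
  refine ⟨K0 + K1 + K2 + 2 * K3 + T0, by positivity, ?_⟩
  intro f B T hT f1 f2 f3 f4 f5 f6 f7
  have hTr : (1 : ℝ) ≤ T := by exact_mod_cast hT
  have hTp : (0 : ℝ) < T := by linarith
  have hpow : 1 ≤ (T : ℝ) ^ (E + ε) := one_le_rpow hTr (by linarith)
  set S := (Ioc B (B + T)).filter (fun t => ∃ n : ℕ, f.eval t = n ∧ Bd A n) with hS
  rcases lt_or_ge (T : ℝ) T0 with hlt | hge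
  · have e1 : (S.card : ℝ) ≤ T := by
      have e2 : S.card ≤ (Ioc B (B + T)).card := card_filter_le _ _
      rw [Int.card_Ioc] at e2
      have e3 : (B + T - B).toNat = T := by omega
      rw [e3] at e2
      exact_mod_cast e2
    calc (S.card : ℝ) ≤ T0 * 1 := by linarith
      _ ≤ (K0 + K1 + K2 + 2 * K3 + T0) * (T : ℝ) ^ (E + ε) := by
          apply mul_le_mul _ hpow zero_le_one (by positivity)
          linarith
  · have hTN : (N : ℝ) ≤ T := (le_max_left _ _).trans hge
    have hTT2 : T2 ≤ T := ((le_max_left _ _).trans (le_max_right _ _)).trans hge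
    set M : ℝ := (T : ℝ) ^ (1 - 1 / A - e) with hM
    have hM1 : 1 ≤ M := one_le_rpow hTr (by linarith)
    set S0 := (Ioc B (B + T)).filter (fun t => ∃ n : ℕ, f.eval t = n ∧ Bd A n ∧
          (n : ℝ) < (T : ℝ) ^ (2 - 1 / A)) with hS0
    set S2 := (Ioc B (B + T)).filter (fun t => ∃ p m : ℕ, p.Prime ∧ (p : ℝ) ≤ (T : ℝ) ^ κ ∧
          f.eval t = ((p * m : ℕ) : ℤ) ∧ GA A m) with hS2
    set S3 := (Ioc B (B + T)).filter (fun t => ∃ m : ℕ, (m : ℤ) ∣ f.eval t ∧ GA A m ∧ M ≤ m ∧
          (m : ℝ) ≤ (T : ℝ) ^ (θ - κ)) with hS3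
    have hcover : S ⊆ (S0 ∪ vals A f B T) ∪ (S2 ∪ S3) := by
      intro t ht
      rw [hS, mem_filter] at ht
      obtain ⟨ht1, n, hn, hb⟩ := ht
      rw [mem_union, mem_union, mem_union]
      by_cases hV : (n : ℝ) < (T : ℝ) ^ (2 - 1 / A)
      · left; left
        rw [hS0, mem_filter]
        exact ⟨ht1, n, hn, hb, hV⟩
      · push Not at hV
        have hTn : (T : ℝ) ≤ n := by
          refine le_trans ?_ hV
          calc (T : ℝ) = (T : ℝ) ^ (1 : ℝ) := (rpow_one _).symm
            _ ≤ _ := rpow_le_rpow_of_exponent_le hTr (by linarith)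
        have hNn : N ≤ n := by exact_mod_cast hTN.trans hTn
        rcases hN n hNn hb with hG | ⟨p, m, hp, hnm, hG, hm2, hpm⟩
        · left; right
          rw [vals, mem_filter]
          exact ⟨ht1, n, hn, hG⟩
        · right
          have hp0 : (0 : ℝ) < p := by exact_mod_cast hp.pos
          by_cases hpκ : (p : ℝ) ≤ (T : ℝ) ^ κ
          · left
            rw [hS2, mem_filter]
            exact ⟨ht1, p, m, hp, hpκ, by rw [hn, hnm], hG⟩
          · right
            push Not at hpκ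
            rw [hS3, mem_filter]
            refine ⟨ht1, m, ?_, hG, ?_, ?_⟩
            · rw [hn, hnm]
              push_cast
              exact dvd_mul_left _ _
            · exact m_large hA he0.le (by rw [← hx]; exact hex') hTr hV hnm hp.pos (by omega) hpm
            · have h7 := f7 t ht1
              rw [hn] at h7
              have h8 : (p : ℝ) * m ≤ (T : ℝ) ^ θ := by
                have : (n : ℝ) = p * m := by rw [hnm]; push_cast; ring
                rw [← this]
                exact_mod_cast h7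
              rw [rpow_sub hTp, le_div_iff₀ (by positivity)]
              calc (m : ℝ) * (T : ℝ) ^ κ ≤ m * p := by gcongr
                _ = p * m := mul_comm _ _
                _ ≤ _ := h8
    have hcard : (S.card : ℝ) ≤ ((S0.card : ℝ) + (vals A f B T).card) + (S2.card + S3.card) := by
      have e1 := (card_le_card hcover).trans (card_union_le _ _)
      have e2 := card_union_le S0 (vals A f B T)
      have e3 := card_union_le S2 S3
      exact_mod_cast e1.trans (add_le_add e2 e3)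
    have g0 := h0 f B T hT f1 f2
    have g1 := h1 f B T hT f1 f2 f3 f5 f6
    have g2 := h2 f B T hTT2 hT f1 f2 f3 f4 f5 f6
    have g3 := h3 f B T hT f2 f4 M hM1
    have c0 : (T : ℝ) ^ ((2 - 1 / A) * (1 / A + e)) ≤ (T : ℝ) ^ (E + ε) := by
      apply rpow_le_rpow_of_exponent_le hTr
      have e1 : (2 - 1 / A) * (1 / A + e) = (1 - x ^ 2) + (1 + x) * e := by rw [hx]; ring
      rw [e1]
      nlinarith
    have c1 : (T : ℝ) ^ (1 / 2 + 1 / (2 * A) + e) ≤ (T : ℝ) ^ (E + ε) := by
      apply rpow_le_rpow_of_exponent_le hTr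
      rw [← hσ]
      nlinarith
    have c2 : (T : ℝ) ^ ((1 / 2 + 1 / (2 * A)) + (1 - (1 / 2 + 1 / (2 * A))) * κ + e) ≤
        (T : ℝ) ^ (E + ε) := by
      apply rpow_le_rpow_of_exponent_le hTr
      rw [← hσ]
      nlinarith
    have c3 : (T : ℝ) ^ ((θ - κ) * e) * (T * M ^ (-(1 - 1 / A - e)) +
        (T : ℝ) ^ ((θ - κ) * (1 / A + e))) ≤ 2 * (T : ℝ) ^ (E + ε) := by
      have e1 : (T : ℝ) * M ^ (-(1 - 1 / A - e)) = (T : ℝ) ^ (1 - (x - e) ^ 2) := by
        rw [hM, ← rpow_mul hTp.le, hx]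
        conv_lhs => rw [← rpow_one (T : ℝ), ← rpow_mul hTp.le]
        rw [← rpow_add hTp]
        congr 1
        ring
      rw [e1, mul_add, ← rpow_add hTp, ← rpow_add hTp, two_mul]
      apply add_le_add
      · apply rpow_le_rpow_of_exponent_le hTr
        nlinarith [mul_nonneg hκ0 he0.le]
      · apply rpow_le_rpow_of_exponent_le hTr
        have e2 : (θ - κ) * e + (θ - κ) * (1 / A + e) = (θ - κ) / A + 2 * ((θ - κ) * e) := by ring
        rw [e2]
        nlinarith [mul_nonneg hκ0 he0.le]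
    calc (S.card : ℝ) ≤ ((S0.card : ℝ) + (vals A f B T).card) + (S2.card + S3.card) := hcard
      _ ≤ (K0 * (T : ℝ) ^ (E + ε) + K1 * (T : ℝ) ^ (E + ε)) +
          (K2 * (T : ℝ) ^ (E + ε) + K3 * (2 * (T : ℝ) ^ (E + ε))) := by
          apply add_le_add
          · apply add_le_add
            · exact g0.trans (mul_le_mul_of_nonneg_left c0 hK0.le)
            · exact g1.trans (mul_le_mul_of_nonneg_left c1 hK1.le)
          · apply add_le_add
            · exact g2.trans (mul_le_mul_of_nonneg_left c2 hK2.le)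
            · refine g3.trans ?_
              rw [mul_assoc]
              exact mul_le_mul_of_nonneg_left c3 hK3.le
      _ ≤ _ := by
          have : 0 ≤ T0 * (T : ℝ) ^ (E + ε) := by positivity
          nlinarith

end Pool.Agent.Q122.WS
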