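import Pool.Agent.Q122.WS.Mach

/-! The proportion of witnesses when there are `k` known prime factors. -/

set_option autoImplicit false

namespace Pool.Agent.Q122.WS

open Finset Real Polynomial
open scoped Classical
open Pool.Agent.W57.SW Pool.Agent.H379R2.W Pool.Agent.Q122.TF

theorem jac_le (a : ℤ) (n : ℕ) : jacobiSym a n ≤ 1 ∧ -1 ≤ jacobiSym a n := by
  rcases jacobiSym.trichotomy a n with h | h | h <;> rw [h] <;> norm_num

/-- counting the bases for which the test is passed -/
theorem many_t {k : ℕ} (hk : 0 < k) (P : Fin k → ℕ) (hP : ∀ i, (P i).Prime) (h2 : ∀ i, P i ≠ 2)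
    (m : ℕ) (hm : ∀ i, P i ∣ m) (W : Finset ℕ) :
    (2 : ℝ) ^ k * ((W.filter (fun b => Passes m b)).card : ℝ) ≤
      ∑ S : Finset (Fin k), 2 * |∑ b ∈ W, ((∏ i ∈ S, jacobiSym (b : ℤ) (P i) : ℤ) : ℝ)| := by
  have hne : (univ : Finset (Fin k)).Nonempty := ⟨⟨0, hk⟩, mem_univ _⟩
  obtain ⟨i0, -, hi0⟩ := exists_min_image univ (fun i => v2 (P i)) hne
  set w : Fin k → ℤ := fun i => if v2 (P i) = v2 (P i0) then -1 else 1 with hw
  have hwabs : ∀ i, w i = 1 ∨ w i = -1 := by
    intro i
    simp only [hw]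
    split_ifs
    · exact Or.inr rfl
    · exact Or.inl rfl
  have hpt : ∀ b ∈ W, (2 : ℤ) ^ k * (if Passes m b then 1 else 0) ≤
      ∏ i, (1 + jacobiSym (b : ℤ) (P i)) + ∏ i, (1 + w i * jacobiSym (b : ℤ) (P i)) := by
    intro b _
    have n1 : 0 ≤ ∏ i, (1 + jacobiSym (b : ℤ) (P i)) := by
      apply prod_nonneg
      intro i _
      have := (jac_le (b : ℤ) (P i)).2
      linarith
    have n2 : 0 ≤ ∏ i, (1 + w i * jacobiSym (b : ℤ) (P i)) := by
      apply prod_nonneg
      intro i _
      have h3 := jac_le (b : ℤ) (P i)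
      rcases hwabs i with h | h <;> rw [h] <;> linarith
    by_cases hb : Passes m b
    · rw [if_pos hb, mul_one]
      have hm2 : 2 ≤ m := by
        rcases Nat.eq_zero_or_pos m with h0 | h0
        · exfalso
          obtain ⟨j, d, h3, h4, -⟩ := hb
          rw [h0] at h3
          have h5 : 0 < 2 ^ j * d := Nat.mul_pos (by positivity) h4.pos
          omega
        · exact (hP i0).two_le.trans (Nat.le_of_dvd h0 (hm i0))
      have h0 : ∀ i, jacobiSym (b : ℤ) (P i) = 1 ∨ jacobiSym (b : ℤ) (P i) = -1 := by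
        intro i
        rcases jacobiSym.trichotomy (b : ℤ) (P i) with h | h | h
        · exfalso
          have : NeZero (P i) := ⟨(hP i).ne_zero⟩
          rw [jacobiSym.eq_zero_iff_not_coprime, Int.gcd_natCast_natCast] at h
          apply h
          show Nat.Coprime b (P i)
          rw [Nat.coprime_comm, (hP i).coprime_iff_not_dvd]
          exact not_dvd_of_passes hm2 (hP i) (hm i) hb
        · exact Or.inl h
        · exact Or.inr h
      have hcase : ∀ i, (v2 (P i) = v2 (P i0) ∧ jacobiSym (b : ℤ) (P i) = jacobiSym (b : ℤ) (P i0)) ∨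
          (v2 (P i) ≠ v2 (P i0) ∧ jacobiSym (b : ℤ) (P i) = 1) := by
        intro i
        by_cases hv : v2 (P i) = v2 (P i0)
        · left
          exact ⟨hv, same_symbol hb (hP i) (hP i0) (h2 i) (h2 i0) (hm i) (hm i0) hv⟩
        · right
          refine ⟨hv, symbol_one hb (hP i) (hP i0) (h2 i) (h2 i0) (hm i) (hm i0) ?_⟩
          exact lt_of_le_of_ne (hi0 i (mem_univ i)) (Ne.symm hv)
      rcases h0 i0 with h3 | h3
      · have h4 : ∏ i, (1 + jacobiSym (b : ℤ) (P i)) = 2 ^ k := by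
          have h5 : ∀ i ∈ (univ : Finset (Fin k)), (1 + jacobiSym (b : ℤ) (P i)) = (2 : ℤ) := by
            intro i _
            rcases hcase i with ⟨-, h6⟩ | ⟨-, h6⟩
            · rw [h6, h3]; norm_num
            · rw [h6]; norm_num
          rw [prod_congr rfl h5, prod_const, card_univ, Fintype.card_fin]
        linarith
      · have h4 : ∏ i, (1 + w i * jacobiSym (b : ℤ) (P i)) = 2 ^ k := by
          have h5 : ∀ i ∈ (univ : Finset (Fin k)), (1 + w i * jacobiSym (b : ℤ) (P i)) = (2 : ℤ) := by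
            intro i _
            rcases hcase i with ⟨h7, h6⟩ | ⟨h7, h6⟩
            · rw [h6, h3]
              simp only [hw]
              rw [if_pos h7]
              norm_num
            · rw [h6]
              simp only [hw]
              rw [if_neg h7]
              norm_num
          rw [prod_congr rfl h5, prod_const, card_univ, Fintype.card_fin]
        linarith
    · rw [if_neg hb, mul_zero]
      linarith
  have hsum : (2 : ℤ) ^ k * ((W.filter (fun b => Passes m b)).card : ℤ) ≤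
      ∑ S : Finset (Fin k), (1 + ∏ i ∈ S, w i) *
        ∑ b ∈ W, ∏ i ∈ S, jacobiSym (b : ℤ) (P i) := by
    have e1 : (2 : ℤ) ^ k * ((W.filter (fun b => Passes m b)).card : ℤ) =
        ∑ b ∈ W, (2 : ℤ) ^ k * (if Passes m b then 1 else 0) := by
      rw [← mul_sum, sum_boole]
    have e2 : ∀ b : ℕ, ∏ i, (1 + jacobiSym (b : ℤ) (P i)) =
        ∑ S : Finset (Fin k), ∏ i ∈ S, jacobiSym (b : ℤ) (P i) := by
      intro b
      rw [prod_one_add, powerset_univ]
    have e3 : ∀ b : ℕ, ∏ i, (1 + w i * jacobiSym (b : ℤ) (P i)) =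
        ∑ S : Finset (Fin k), (∏ i ∈ S, w i) * ∏ i ∈ S, jacobiSym (b : ℤ) (P i) := by
      intro b
      rw [prod_one_add, powerset_univ]
      exact sum_congr rfl fun S _ => prod_mul_distrib
    rw [e1]
    refine (sum_le_sum hpt).trans (le_of_eq ?_)
    rw [sum_add_distrib]
    simp only [e2, e3]
    rw [sum_comm, sum_comm (s := W), ← sum_add_distrib]
    refine sum_congr rfl fun S _ => ?_
    rw [← mul_sum]
    ring
  have hsum' : (2 : ℝ) ^ k * ((W.filter (fun b => Passes m b)).card : ℝ) ≤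
      ∑ S : Finset (Fin k), (1 + ((∏ i ∈ S, w i : ℤ) : ℝ)) *
        ((∑ b ∈ W, ∏ i ∈ S, jacobiSym (b : ℤ) (P i) : ℤ) : ℝ) := by
    exact_mod_cast hsum
  refine hsum'.trans (sum_le_sum fun S _ => ?_)
  have hwS : ((∏ i ∈ S, w i : ℤ) : ℝ) = 1 ∨ ((∏ i ∈ S, w i : ℤ) : ℝ) = -1 := by
    have : ∀ S : Finset (Fin k), (∏ i ∈ S, w i) = 1 ∨ (∏ i ∈ S, w i) = -1 := by
      intro S
      induction S using Finset.induction_on with
      | empty => left; rfl
      | insert x S hx ih =>
        rw [prod_insert hx]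
        rcases hwabs x with h | h <;> rcases ih with h' | h' <;> rw [h, h'] <;> norm_num
    rcases this S with h | h <;> rw [h] <;> norm_num
  push_cast
  set Z : ℝ := ∑ b ∈ W, ∏ i ∈ S, ((jacobiSym (b : ℤ) (P i) : ℤ) : ℝ) with hZ
  have hZ1 := le_abs_self Z
  have hZ0 := abs_nonneg Z
  push_cast at hwS
  rcases hwS with h | h <;> rw [h] <;> nlinarith

/-- the sum of the symbols in terms of the split primes -/
theorem sum_symb (v : ℕ) (hv : Odd v) (W : Finset ℕ) (hW : ∀ b ∈ W, b.Prime ∧ ¬ b ∣ v) (d : ℤ)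
    (hd : (v % 4 = 1 ∧ d = v) ∨ (v % 4 = 3 ∧ d = -(v : ℤ))) :
    |∑ b ∈ W, (jacobiSym (b : ℤ) v : ℝ)| ≤
      |2 * ((W.filter (fun b => Spp d b)).card : ℝ) - W.card| + 2 := by
  have h1 : ∀ b ∈ W, |(jacobiSym (b : ℤ) v : ℝ) - (2 * (if Spp d b then (1 : ℝ) else 0) - 1)| ≤
      (if b = 2 then (2 : ℝ) else 0) := by
    intro b hb
    obtain ⟨hbp, hbv⟩ := hW b hb
    by_cases hb2 : b = 2
    · rw [if_pos hb2]
      have h2 : |(jacobiSym (b : ℤ) v : ℝ)| ≤ 1 := by
        rcases jacobiSym.trichotomy (b : ℤ) v with h | h | h <;> rw [h] <;> simp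
      have h3 := abs_le.1 h2
      rw [abs_le]
      split_ifs <;> constructor <;> linarith [h3.1, h3.2]
    · rw [if_neg hb2]
      have hbo : Odd b := hbp.odd_of_ne_two hb2
      have hrec : jacobiSym (b : ℤ) v = jacobiSym d b := by
        rcases hd with ⟨h4, hd⟩ | ⟨h4, hd⟩
        · rw [hd, jacobiSym.quadratic_reciprocity_one_mod_four h4 hbo]
        · rw [hd, jacobiSym.neg _ hbo]
          rcases Nat.odd_mod_four_iff.1 (Nat.odd_iff.1 hbo) with h6 | h6
          · rw [ZMod.χ₄_nat_one_mod_four h6, one_mul,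
              jacobiSym.quadratic_reciprocity_one_mod_four h6 hv]
          · rw [ZMod.χ₄_nat_three_mod_four h6,
              jacobiSym.quadratic_reciprocity_three_mod_four h4 h6]
            norm_num
      have hd4 : d % 4 = 0 ∨ d % 4 = 1 := by
        rcases hd with ⟨h4, hd⟩ | ⟨h4, hd⟩ <;> right <;> rw [hd] <;> omega
      have hiff := Pool.Agent.TH869.EVF.split_iff d hd4 b hbp hb2
      have hiff' : Spp d b ↔ jacobiSym d b = 1 := hiff
      rcases jacobiSym.trichotomy d b with h | h | h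
      · exfalso
        have : Fact b.Prime := ⟨hbp⟩
        rw [← jacobiSym.legendreSym.to_jacobiSym, legendreSym.eq_zero_iff,
          ZMod.intCast_zmod_eq_zero_iff_dvd] at h
        apply hbv
        rcases hd with ⟨_, hd⟩ | ⟨_, hd⟩
        · rw [hd] at h; exact_mod_cast h
        · rw [hd, dvd_neg] at h; exact_mod_cast h
      · rw [hrec, h, if_pos (hiff'.2 h)]
        norm_num
      · rw [hrec, h, if_neg (fun h5 => by rw [hiff'.1 h5] at h; norm_num at h)]
        norm_num
  have h2 : ∑ b ∈ W, (2 * (if Spp d b then (1 : ℝ) else 0) - 1) =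
      2 * ((W.filter (fun b => Spp d b)).card : ℝ) - W.card := by
    rw [sum_sub_distrib, ← mul_sum, sum_boole, sum_const, nsmul_eq_mul, mul_one]
  have h3 : ∑ b ∈ W, (jacobiSym (b : ℤ) v : ℝ) =
      ∑ b ∈ W, ((jacobiSym (b : ℤ) v : ℝ) - (2 * (if Spp d b then (1 : ℝ) else 0) - 1)) +
        (2 * ((W.filter (fun b => Spp d b)).card : ℝ) - W.card) := by
    rw [← h2, ← sum_add_distrib]
    exact sum_congr rfl fun b _ => by ring
  rw [h3]
  refine (abs_add_le _ _).trans ?_
  have h4 : |∑ b ∈ W, ((jacobiSym (b : ℤ) v : ℝ) - (2 * (if Spp d b then (1 : ℝ) else 0) - 1))| ≤ 2 := by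
    refine (abs_sum_le_sum_abs _ _).trans ((sum_le_sum h1).trans ?_)
    rw [← sum_filter, sum_const, nsmul_eq_mul]
    have h5 : (W.filter (fun b => b = 2)).card ≤ 1 := by
      have h6 : W.filter (fun b => b = 2) ⊆ {2} := by
        intro b hb
        rw [mem_filter] at hb
        rw [mem_singleton]
        exact hb.2
      simpa using card_le_card h6
    have h7 : ((W.filter (fun b => b = 2)).card : ℝ) ≤ 1 := by exact_mod_cast h5
    linarith
  linarith

end Pool.Agent.Q122.WS
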