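import Pool.Agent.Q122.WS.Many

/-! The proportion of witnesses for one value of the parameter. -/

set_option autoImplicit false

namespace Pool.Agent.Q122.WS

open Finset Real Polynomial
open scoped Classical
open Pool.Agent.W57.SW Pool.Agent.H379R2.W Pool.Agent.Q122.TF

theorem jac_prod {k : ℕ} (P : Fin k → ℕ) (hP : ∀ i, P i ≠ 0) (a : ℤ) (S : Finset (Fin k)) :
    jacobiSym a (∏ i ∈ S, P i) = ∏ i ∈ S, jacobiSym a (P i) := by
  induction S using Finset.induction_on with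
  | empty => simp
  | insert x S hx ih =>
    rw [prod_insert hx, prod_insert hx]
    have : NeZero (P x) := ⟨hP x⟩
    have : NeZero (∏ i ∈ S, P i) := ⟨prod_ne_zero_iff.mpr fun i _ => hP i⟩
    rw [jacobiSym.mul_right, ih]

theorem sqf_prod {k : ℕ} (P : Fin k → ℕ) (hP : ∀ i, (P i).Prime) (hinj : Function.Injective P)
    (S : Finset (Fin k)) : Squarefree (∏ i ∈ S, P i) := by
  induction S using Finset.induction_on with
  | empty => simp
  | insert x S hx ih =>
    rw [prod_insert hx, Nat.squarefree_mul_iff]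
    refine ⟨?_, (hP x).squarefree, ih⟩
    apply Nat.Coprime.prod_right
    intro i hi
    rw [Nat.coprime_primes (hP x) (hP i)]
    intro h
    apply hx
    rw [hinj h]
    exact hi

theorem per_t {k : ℕ} (hk : 0 < k) (Q : Set ℕ) (a c η : ℝ) (T : ℕ) (ha : 0 < a) (hc : 0 < c)
    (hη : 0 < η) (P : Fin k → ℕ) (hP : ∀ i, (P i).Prime) (h2 : ∀ i, P i ≠ 2)
    (hinj : Function.Injective P)
    (hgood : ∀ S : Finset (Fin k), S.Nonempty →
      GoodV Q a c η T ((∏ i ∈ S, P i : ℕ) : ℤ) ∧ GoodV Q a c η T (-((∏ i ∈ S, P i : ℕ) : ℤ)))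
    (m : ℕ) (hm : ∀ i, P i ∣ m) (y : ℕ) (hy1 : (log ((∏ i, P i : ℕ) : ℝ)) ^ a ≤ y)
    (hy2 : (y : ℝ) ≤ ((T : ℝ) ^ c) ^ c) (hy3 : ∀ i, y < P i) :
    (((PQ Q y).filter (fun b => Passes m b)).card : ℝ) ≤
      (2 / 2 ^ k + 2 * η) * (PQ Q y).card + 4 := by
  have hk2 : (0 : ℝ) < 2 ^ k := by positivity
  have h1 := many_t hk P hP h2 m hm (PQ Q y)
  have hb : ∀ S : Finset (Fin k), S.Nonempty →
      |∑ b ∈ PQ Q y, ((∏ i ∈ S, jacobiSym (b : ℤ) (P i) : ℤ) : ℝ)| ≤ η * (PQ Q y).card + 2 := by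
    intro S hS
    set v : ℕ := ∏ i ∈ S, P i with hv
    have hvodd : Odd v := by
      rw [hv]
      apply Finset.prod_induction _ Odd (fun _ _ => Odd.mul) odd_one
      intro i _
      exact (hP i).odd_of_ne_two (h2 i)
    have hvs : Squarefree v := sqf_prod P hP hinj S
    have hv1 : 1 ≤ v := hvodd.pos
    have e1 : ∀ b ∈ PQ Q y, ((∏ i ∈ S, jacobiSym (b : ℤ) (P i) : ℤ) : ℝ) =
        ((jacobiSym (b : ℤ) v : ℤ) : ℝ) := by
      intro b _
      rw [hv, jac_prod P (fun i => (hP i).ne_zero)]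
    rw [sum_congr rfl e1]
    have hW : ∀ b ∈ PQ Q y, b.Prime ∧ ¬ b ∣ v := by
      intro b hb
      rw [mem_PQ] at hb
      refine ⟨hb.1, fun hbv => ?_⟩
      rw [hv, hb.1.prime.dvd_finsetProd_iff] at hbv
      obtain ⟨i, _, hi⟩ := hbv
      have h3 := (Nat.prime_dvd_prime_iff_eq hb.1 (hP i)).1 hi
      have := hy3 i
      omega
    have hlogv : (log (v : ℝ)) ^ a ≤ y := by
      refine le_trans ?_ hy1
      apply rpow_le_rpow (log_natCast_nonneg v) _ ha.le
      apply log_le_log (by exact_mod_cast hv1)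
      have h3 : v ≤ ∏ i, P i := by
        rw [hv]
        exact Finset.prod_le_prod_of_subset_of_one_le' (subset_univ S) fun i _ _ => (hP i).one_le
      exact_mod_cast h3
    obtain ⟨g1, g2⟩ := hgood S hS
    have hfin : ∀ d : ℤ, |(d : ℝ)| = v → ((v % 4 = 1 ∧ d = v) ∨ (v % 4 = 3 ∧ d = -(v : ℤ))) →
        GoodV Q a c η T d → d % 4 = 1 → Squarefree d →
        |∑ b ∈ PQ Q y, (jacobiSym (b : ℤ) v : ℝ)| ≤ η * (PQ Q y).card + 2 := by
      intro d hd hd2 hg hd4 hds
      obtain ⟨g3, g4⟩ := hg.2 d (Or.inl ⟨hd4, hds⟩) ⟨d, rfl⟩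
      rw [hd] at g3 g4
      have hyv : (y : ℝ) ≤ (v : ℝ) ^ c :=
        hy2.trans (rpow_le_rpow (by positivity) g3 hc.le)
      have h5 := g4 y hlogv hyv
      have h6 := sum_symb v hvodd (PQ Q y) hW d hd2
      linarith
    rcases Nat.odd_mod_four_iff.1 (Nat.odd_iff.1 hvodd) with h4 | h4
    · apply hfin (v : ℤ) (by push_cast; exact abs_of_nonneg (by positivity)) (Or.inl ⟨h4, rfl⟩) g1
        (by omega) (Int.squarefree_natCast.2 hvs)
    · apply hfin (-(v : ℤ)) (by push_cast; rw [abs_neg]; exact abs_of_nonneg (by positivity))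
        (Or.inr ⟨h4, rfl⟩) g2 (by omega)
      exact (Associated.squarefree_iff (Associated.neg_left (Associated.refl (v : ℤ)))).2
        (Int.squarefree_natCast.2 hvs)
  have hcardS : ((univ : Finset (Finset (Fin k))).card : ℝ) = 2 ^ k := by
    rw [card_univ, Fintype.card_finset, Fintype.card_fin]
    push_cast
    rfl
  have h3 : ∑ S : Finset (Fin k), 2 * |∑ b ∈ PQ Q y, ((∏ i ∈ S, jacobiSym (b : ℤ) (P i) : ℤ) : ℝ)|
      ≤ ∑ S : Finset (Fin k), ((if S = ∅ then 2 * ((PQ Q y).card : ℝ) else 0) +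
        2 * (η * (PQ Q y).card + 2)) := by
    refine sum_le_sum fun S _ => ?_
    by_cases hS : S = ∅
    · rw [if_pos hS, hS]
      have e : ∑ b ∈ PQ Q y, ((∏ i ∈ (∅ : Finset (Fin k)), jacobiSym (b : ℤ) (P i) : ℤ) : ℝ) =
          (PQ Q y).card := by
        simp
      rw [e, abs_of_nonneg (by positivity)]
      have : 0 ≤ 2 * (η * ((PQ Q y).card : ℝ) + 2) := by positivity
      linarith
    · rw [if_neg hS, zero_add]
      have := hb S (Finset.nonempty_iff_ne_empty.2 hS)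
      linarith
  rw [sum_add_distrib, sum_ite_eq' univ ∅ (fun _ => 2 * ((PQ Q y).card : ℝ)), if_pos (mem_univ _),
    sum_const, nsmul_eq_mul, hcardS] at h3
  have h4 : (2 : ℝ) ^ k * (((PQ Q y).filter (fun b => Passes m b)).card : ℝ) ≤
      2 ^ k * ((2 / 2 ^ k + 2 * η) * (PQ Q y).card + 4) := by
    refine (h1.trans h3).trans (le_of_eq ?_)
    field_simp
    ring
  exact le_of_mul_le_mul_left h4 hk2

end Pool.Agent.Q122.WS
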