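import Pool.Agent.Q122.WS.ManyB

/-! The proportion of witnesses for the values of several polynomials. -/

set_option autoImplicit false

namespace Pool.Agent.Q122.WS

open Finset Real Polynomial
open scoped Classical
open Pool.Agent.W57.SW Pool.Agent.H379R2.W Pool.Agent.Q122.TF

theorem coeff_mul_le (f g : ℤ[X]) (D : ℕ) (hf : f.natDegree ≤ D) (H G : ℝ) (hH : 0 ≤ H)
    (hG : 0 ≤ G) (h1 : ∀ i, |(f.coeff i : ℝ)| ≤ H) (h2 : ∀ i, |(g.coeff i : ℝ)| ≤ G) (n : ℕ) :
    |((f * g).coeff n : ℝ)| ≤ (D + 1) * H * G := by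
  rw [coeff_mul, Finset.Nat.sum_antidiagonal_eq_sum_range_succ_mk]
  push_cast
  refine (abs_sum_le_sum_abs _ _).trans ?_
  have h3 : ∀ i ∈ Finset.range (n + 1), |(f.coeff i : ℝ) * (g.coeff (n - i) : ℝ)| ≤
      if i ∈ Finset.range (D + 1) then H * G else 0 := by
    intro i _
    by_cases hi : i ∈ Finset.range (D + 1)
    · rw [if_pos hi, abs_mul]
      exact mul_le_mul (h1 i) (h2 _) (abs_nonneg _) hH
    · rw [if_neg hi]
      rw [Finset.mem_range] at hi
      rw [coeff_eq_zero_of_natDegree_lt (by omega)]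
      simp
  refine (sum_le_sum h3).trans ?_
  rw [← sum_filter, sum_const, nsmul_eq_mul]
  have h4 : ((Finset.range (n + 1)).filter (fun i => i ∈ Finset.range (D + 1))).card ≤ D + 1 := by
    have : (Finset.range (n + 1)).filter (fun i => i ∈ Finset.range (D + 1)) ⊆
        Finset.range (D + 1) := by
      intro i hi
      rw [mem_filter] at hi
      exact hi.2
    simpa using card_le_card this
  have h5 : (((Finset.range (n + 1)).filter (fun i => i ∈ Finset.range (D + 1))).card : ℝ) ≤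
      (D : ℝ) + 1 := by exact_mod_cast h4
  rw [mul_assoc]
  exact mul_le_mul_of_nonneg_right h5 (mul_nonneg hH hG)

theorem coeff_prod_le {k : ℕ} (f : Fin k → ℤ[X]) (D : ℕ) (hf : ∀ i, (f i).natDegree ≤ D) (H : ℝ)
    (hH : 1 ≤ H) (h1 : ∀ i j, |((f i).coeff j : ℝ)| ≤ H) (S : Finset (Fin k)) :
    ∀ n, |((∏ i ∈ S, f i).coeff n : ℝ)| ≤ ((D + 1) * H) ^ S.card := by
  induction S using Finset.induction_on with
  | empty =>
    intro n
    rw [prod_empty, card_empty, pow_zero, coeff_one]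
    split_ifs <;> simp
  | insert x S hx ih =>
    intro n
    rw [prod_insert hx, card_insert_of_notMem hx, pow_succ']
    exact coeff_mul_le (f x) _ D (hf x) H _ (by linarith) (by positivity) (h1 x) ih n

theorem pq_large (Q : Set ℕ) (ρ : ℝ) (hρ : 0 < ρ) (hQ : ∃ κ : ℝ, 0 < κ ∧ ∃ y0 : ℕ, ∀ y : ℕ,
    y0 ≤ y → κ * (y : ℝ) ^ ρ ≤ (PQ Q y).card * Real.log y) (C : ℝ) :
    ∃ Y : ℝ, ∀ y : ℕ, Y ≤ y → C ≤ (PQ Q y).card := by
  obtain ⟨κ, hκ, y0, h⟩ := hQ
  have h1 : ∀ᶠ y : ℝ in Filter.atTop, ‖log y‖ ≤ κ / (|C| + 1) * ‖y ^ ρ‖ :=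
    (isLittleO_log_rpow_atTop hρ).bound (by positivity)
  obtain ⟨Y1, hY1⟩ := Filter.eventually_atTop.1 (h1.and (Filter.eventually_ge_atTop 2))
  refine ⟨max Y1 y0, fun y hy => ?_⟩
  obtain ⟨g1, g2⟩ := hY1 y ((le_max_left _ _).trans hy)
  have g3 := h y (by exact_mod_cast (le_max_right _ _).trans hy)
  have hlog : 0 < log (y : ℝ) := log_pos (by linarith)
  rw [norm_of_nonneg hlog.le, norm_of_nonneg (by positivity)] at g1
  have hC : 0 < |C| + 1 := by positivity
  have g4 : (|C| + 1) * log (y : ℝ) ≤ κ * (y : ℝ) ^ ρ := by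
    calc (|C| + 1) * log (y : ℝ) ≤ (|C| + 1) * (κ / (|C| + 1) * (y : ℝ) ^ ρ) := by gcongr
      _ = κ * (y : ℝ) ^ ρ := by field_simp
  have g5 : |C| + 1 ≤ (PQ Q y).card := le_of_mul_le_mul_right (g4.trans g3) hlog
  have := le_abs_self C
  linarith

theorem many_main (k D : ℕ) (a ρ τ η ε : ℝ) (Q : Set ℕ) (hk : 0 < k) (hD : 1 ≤ D) (hρ : 0 < ρ)
    (hρ1 : ρ ≤ 1) (ha : 1 < a * ρ) (hτ : 0 < τ) (hη : 0 < η) (hε : 0 < ε)
    (hQ : ∃ κ : ℝ, 0 < κ ∧ ∃ y0 : ℕ, ∀ y : ℕ, y0 ≤ y →
      κ * (y : ℝ) ^ ρ ≤ (PQ Q y).card * Real.log y) :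
    ∃ c K : ℝ, 0 < c ∧ 0 < K ∧ ∀ (f : Fin k → ℤ[X]) (B : ℤ) (T : ℕ), 1 ≤ T →
      (∀ i, 1 ≤ (f i).natDegree) → (∏ i, f i).natDegree ≤ D →
      Squarefree ((∏ i, f i).map (Int.castRingHom ℚ)) →
      (∀ i j, |((f i).coeff j : ℝ)| ^ τ ≤ T) → |(B : ℝ)| ^ τ ≤ T →
      ∃ E : Finset ℤ, (E.card : ℝ) ≤ K * (T : ℝ) ^ (1 - ρ / 2 + 1 / (2 * a) + ε) ∧
        ∀ t : ℤ, B < t → t ≤ B + T → t ∉ E → ∀ P : Fin k → ℕ, (∀ i, (P i).Prime) →
          (∀ i, (f i).eval t = P i) → Function.Injective P →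
          (log ((∏ i, P i : ℕ) : ℝ)) ^ a + 1 ≤ (T : ℝ) ^ c ∧ ∀ m : ℕ, (∀ i, P i ∣ m) →
          ∀ y : ℕ, (log ((∏ i, P i : ℕ) : ℝ)) ^ a ≤ y → (y : ℝ) ≤ (T : ℝ) ^ c →
            1 ≤ (PQ Q y).card ∧ (((PQ Q y).filter (fun b => Passes m b)).card : ℝ) ≤
              (2 / 2 ^ k + η) * (PQ Q y).card := by
  have ha0 : 0 < a := by
    by_contra h
    have : a * ρ ≤ 0 := mul_nonpos_of_nonpos_of_nonneg (not_lt.1 h) hρ.le
    linarith
  have hkr : (1 : ℝ) ≤ k := by exact_mod_cast hk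
  set τ' : ℝ := 1 / ((1 + 1 / τ) * k) with hτ'
  have hτ'0 : 0 < τ' := by positivity
  have hτ'τ : τ' ≤ τ := by
    rw [hτ', div_le_iff₀ (by positivity)]
    have e : τ * ((1 + 1 / τ) * k) = (τ + 1) * k := by field_simp
    rw [e]
    nlinarith
  obtain ⟨c, K, hc, hK, h⟩ := segs D hD a ρ τ' (η / 4) ε Q hρ1 ha0 ha hτ'0 (by positivity) hε hQ
  obtain ⟨Y, hY⟩ := pq_large Q ρ hρ hQ (8 / η)
  -- threshold for `T`
  set c' : ℝ := min (c / 2) (c * c) with hc'
  have hc'0 : 0 < c' := lt_min (by positivity) (by positivity)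
  set C3 : ℝ := (1 + 1 / τ) * k * (D + 2 : ℕ) with hC3
  have hC30 : 0 < C3 := by positivity
  have hev : ∀ᶠ x : ℝ in Filter.atTop, (((D : ℝ) + 1 ≤ x ∧ 8 < x ^ c ∧ Y ≤ (c * log x) ^ a ∧ 1 < x) ∧
      (C3 * log x) ^ a + 1 ≤ x ^ c') ∧ (D + 1) * (2 : ℝ) ^ D ≤ x := by
    have t1 : Filter.Tendsto (fun x : ℝ => c * log x) Filter.atTop Filter.atTop :=
      tendsto_log_atTop.const_mul_atTop hc
    have t2 : ∀ᶠ x : ℝ in Filter.atTop, (C3 * log x) ^ a + 1 ≤ x ^ c' := by
      have e1 : ∀ᶠ x : ℝ in Filter.atTop, ‖log x‖ ≤ 1 / (2 ^ (1 / a) * C3) * ‖x ^ (c' / a)‖ :=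
        (isLittleO_log_rpow_atTop (by positivity)).bound (by positivity)
      filter_upwards [e1, Filter.eventually_ge_atTop 1,
        (tendsto_rpow_atTop hc'0).eventually_ge_atTop 2] with x g1 g2 g3
      have hx0 : 0 < x := by linarith
      rw [norm_of_nonneg (log_nonneg g2), norm_of_nonneg (by positivity)] at g1
      have g4 : C3 * log x ≤ x ^ (c' / a) / 2 ^ (1 / a) := by
        calc C3 * log x ≤ C3 * (1 / (2 ^ (1 / a) * C3) * x ^ (c' / a)) := by gcongr
          _ = x ^ (c' / a) / 2 ^ (1 / a) := by field_simp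
      have g5 : (C3 * log x) ^ a ≤ x ^ c' / 2 := by
        calc (C3 * log x) ^ a ≤ (x ^ (c' / a) / 2 ^ (1 / a)) ^ a :=
              rpow_le_rpow (mul_nonneg hC30.le (log_nonneg g2)) g4 ha0.le
          _ = x ^ c' / 2 := by
              rw [div_rpow (by positivity) (by positivity), ← rpow_mul hx0.le,
                ← rpow_mul (by norm_num), div_mul_cancel₀ _ ha0.ne',
                one_div_mul_cancel ha0.ne', rpow_one]
      linarith
    exact (((Filter.eventually_ge_atTop _).and (((tendsto_rpow_atTop hc).eventually_gt_atTop 8).and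
      ((((tendsto_rpow_atTop ha0).comp t1).eventually_ge_atTop Y).and
        (Filter.eventually_gt_atTop 1)))).and t2).and (Filter.eventually_ge_atTop _)
  obtain ⟨T0, hT0⟩ := Filter.eventually_atTop.1 hev
  refine ⟨c', 2 ^ (k + 1) * K + (|T0| + 1), hc'0, by positivity, ?_⟩
  intro f B T hT f1 f2 f3 f5 f6
  have hTr : (1 : ℝ) ≤ T := by exact_mod_cast hT
  have hTp : (0 : ℝ) < T := by linarith
  have hexp : 0 ≤ 1 - ρ / 2 + 1 / (2 * a) + ε := by
    have : 0 < 1 / (2 * a) := by positivity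
    linarith
  have hpow : 1 ≤ (T : ℝ) ^ (1 - ρ / 2 + 1 / (2 * a) + ε) := one_le_rpow hTr hexp
  rcases lt_or_ge (T : ℝ) T0 with hlt | hge
  · refine ⟨Ioc B (B + T), ?_, fun t ht1 ht2 htE => absurd (mem_Ioc.2 ⟨ht1, ht2⟩) htE⟩
    rw [Int.card_Ioc]
    have e3 : (B + T - B).toNat = T := by omega
    rw [e3]
    have := le_abs_self T0
    calc (T : ℝ) ≤ (|T0| + 1) * 1 := by linarith
      _ ≤ (2 ^ (k + 1) * K + (|T0| + 1)) * (T : ℝ) ^ (1 - ρ / 2 + 1 / (2 * a) + ε) := by
          apply mul_le_mul _ hpow zero_le_one (by positivity)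
          have : 0 ≤ 2 ^ (k + 1) * K := by positivity
          linarith
  · obtain ⟨⟨⟨k1, k2, k3, k4⟩, k5⟩, k6⟩ := hT0 T hge
    have hne : ∀ i, f i ≠ 0 := by
      intro i h0
      have := f1 i
      rw [h0] at this
      simp at this
    have hdegsum : ∀ S : Finset (Fin k), (∏ i ∈ S, f i).natDegree = ∑ i ∈ S, (f i).natDegree :=
      fun S => natDegree_prod S f fun i _ => hne i
    have hinv : ∀ z : ℝ, 0 ≤ z → z ^ τ ≤ T → z ≤ (T : ℝ) ^ (1 / τ) := by
      intro z hz hzT
      calc z = (z ^ τ) ^ (1 / τ) := by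
            rw [← rpow_mul hz, mul_one_div_cancel hτ.ne', rpow_one]
        _ ≤ _ := rpow_le_rpow (by positivity) hzT (by positivity)
    have hfD : ∀ i, (f i).natDegree ≤ D := by
      intro i
      refine le_trans ?_ f2
      rw [hdegsum]
      exact single_le_sum (f := fun i => (f i).natDegree) (fun _ _ => Nat.zero_le _) (mem_univ i)
    have hTτ : 1 ≤ (T : ℝ) ^ (1 / τ) := one_le_rpow hTr (by positivity)
    have hcoef : ∀ (S : Finset (Fin k)) (n : ℕ), |((∏ i ∈ S, f i).coeff n : ℝ)| ^ τ' ≤ T := by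
      intro S n
      have g1 := coeff_prod_le f D hfD ((T : ℝ) ^ (1 / τ)) hTτ
        (fun i j => hinv _ (abs_nonneg _) (f5 i j)) S n
      have g2 : ((D + 1 : ℝ) * (T : ℝ) ^ (1 / τ)) ^ S.card ≤ (T : ℝ) ^ ((1 + 1 / τ) * k) := by
        have e1 : (D + 1 : ℝ) * (T : ℝ) ^ (1 / τ) ≤ (T : ℝ) ^ (1 + 1 / τ) := by
          rw [rpow_add hTp, rpow_one]
          gcongr
        have e2 : 1 ≤ (T : ℝ) ^ (1 + 1 / τ) := one_le_rpow hTr (by positivity)
        have e3 : S.card ≤ k := by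
          have := card_le_univ S
          rwa [Fintype.card_fin] at this
        calc ((D + 1 : ℝ) * (T : ℝ) ^ (1 / τ)) ^ S.card ≤ ((T : ℝ) ^ (1 + 1 / τ)) ^ S.card :=
              pow_le_pow_left₀ (by positivity) e1 _
          _ ≤ ((T : ℝ) ^ (1 + 1 / τ)) ^ k := pow_le_pow_right₀ e2 e3
          _ = (T : ℝ) ^ ((1 + 1 / τ) * k) := by rw [← rpow_natCast, ← rpow_mul hTp.le]
      calc |((∏ i ∈ S, f i).coeff n : ℝ)| ^ τ' ≤ ((T : ℝ) ^ ((1 + 1 / τ) * k)) ^ τ' :=
            rpow_le_rpow (abs_nonneg _) (g1.trans g2) hτ'0.le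
        _ = T := by
            rw [← rpow_mul hTp.le, hτ', mul_one_div_cancel (by positivity), rpow_one]
    have hB : |(B : ℝ)| ^ τ' ≤ T := by
      calc |(B : ℝ)| ^ τ' ≤ ((T : ℝ) ^ (1 / τ)) ^ τ' :=
            rpow_le_rpow (abs_nonneg _) (hinv _ (abs_nonneg _) f6) hτ'0.le
        _ = (T : ℝ) ^ (1 / τ * τ') := (rpow_mul hTp.le _ _).symm
        _ ≤ (T : ℝ) ^ (1 : ℝ) := by
            apply rpow_le_rpow_of_exponent_le hTr
            rw [one_div_mul_eq_div, div_le_one hτ]
            exact hτ'τ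
        _ = T := rpow_one _
    have hexS : ∀ S : Finset (Fin k), S.Nonempty → ∃ E : Finset ℤ,
        (E.card : ℝ) ≤ 2 * (K * (T : ℝ) ^ (1 - ρ / 2 + 1 / (2 * a) + ε)) ∧
        ∀ t ∈ Ioc B (B + T), t ∉ E → GoodV Q a c (η / 4) T ((∏ i ∈ S, f i).eval t) ∧
          GoodV Q a c (η / 4) T (-(∏ i ∈ S, f i).eval t) := by
      intro S hS
      have d1 : 1 ≤ (∏ i ∈ S, f i).natDegree := by
        obtain ⟨i, hi⟩ := hS
        rw [hdegsum]
        exact (f1 i).trans (single_le_sum (f := fun i => (f i).natDegree)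
          (fun _ _ => Nat.zero_le _) hi)
      have d2 : (∏ i ∈ S, f i).natDegree ≤ D := by
        refine le_trans ?_ f2
        rw [hdegsum, hdegsum]
        exact sum_le_sum_of_subset (subset_univ S)
      have d3 : Squarefree ((∏ i ∈ S, f i).map (Int.castRingHom ℚ)) := by
        apply f3.squarefree_of_dvd
        apply Polynomial.map_dvd
        exact prod_dvd_prod_of_subset S univ f (subset_univ S)
      obtain ⟨E1, -, hE1, hE1'⟩ := h _ B T hT d1 d2 d3 (hcoef S) hB
      obtain ⟨E2, -, hE2, hE2'⟩ := h (-(∏ i ∈ S, f i)) B T hT (by rwa [natDegree_neg])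
        (by rwa [natDegree_neg])
        (by
          rw [Polynomial.map_neg]
          exact (Associated.squarefree_iff (Associated.neg_left (Associated.refl _))).2 d3)
        (by
          intro i
          rw [coeff_neg]
          push_cast
          rw [abs_neg]
          exact hcoef S i) hB
      refine ⟨E1 ∪ E2, ?_, ?_⟩
      · have : ((E1 ∪ E2).card : ℝ) ≤ E1.card + E2.card := by exact_mod_cast card_union_le _ _
        linarith
      · intro t ht htE
        rw [mem_union, not_or] at htE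
        have e2 := hE2' t ht htE.2
        rw [eval_neg] at e2
        exact ⟨hE1' t ht htE.1, e2⟩
    have hex2 : ∀ S : Finset (Fin k), ∃ E : Finset ℤ,
        (E.card : ℝ) ≤ 2 * (K * (T : ℝ) ^ (1 - ρ / 2 + 1 / (2 * a) + ε)) ∧
        (S.Nonempty → ∀ t ∈ Ioc B (B + T), t ∉ E → GoodV Q a c (η / 4) T ((∏ i ∈ S, f i).eval t) ∧
          GoodV Q a c (η / 4) T (-(∏ i ∈ S, f i).eval t)) := by
      intro S
      by_cases hS : S.Nonempty
      · obtain ⟨E, hE, hE'⟩ := hexS S hS
        exact ⟨E, hE, fun _ => hE'⟩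
      · exact ⟨∅, by rw [card_empty]; push_cast; positivity, fun h' => absurd h' hS⟩
    choose ES hES1 hES2 using hex2
    refine ⟨univ.biUnion ES, ?_, ?_⟩
    · have e1 : ((univ.biUnion ES).card : ℝ) ≤ ∑ S : Finset (Fin k), ((ES S).card : ℝ) := by
        exact_mod_cast card_biUnion_le
      have e2 : ∑ S : Finset (Fin k), ((ES S).card : ℝ) ≤
          ∑ S : Finset (Fin k), 2 * (K * (T : ℝ) ^ (1 - ρ / 2 + 1 / (2 * a) + ε)) :=
        sum_le_sum fun S _ => hES1 S
      rw [sum_const, nsmul_eq_mul, card_univ, Fintype.card_finset, Fintype.card_fin] at e2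
      push_cast at e2
      have e3 : 0 ≤ (|T0| + 1) * (T : ℝ) ^ (1 - ρ / 2 + 1 / (2 * a) + ε) := by positivity
      calc ((univ.biUnion ES).card : ℝ)
          ≤ 2 ^ k * (2 * (K * (T : ℝ) ^ (1 - ρ / 2 + 1 / (2 * a) + ε))) := e1.trans e2
        _ = 2 ^ (k + 1) * K * (T : ℝ) ^ (1 - ρ / 2 + 1 / (2 * a) + ε) := by ring
        _ ≤ _ := by rw [add_mul]; linarith
    · intro t ht1 ht2 htE P hP hfP hinj
      have htI : t ∈ Ioc B (B + T) := mem_Ioc.2 ⟨ht1, ht2⟩
      have hval : ∀ S : Finset (Fin k), (∏ i ∈ S, f i).eval t = ((∏ i ∈ S, P i : ℕ) : ℤ) := by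
        intro S
        rw [eval_prod]
        push_cast
        exact prod_congr rfl fun i _ => hfP i
      have hgood : ∀ S : Finset (Fin k), S.Nonempty →
          GoodV Q a c (η / 4) T ((∏ i ∈ S, P i : ℕ) : ℤ) ∧
            GoodV Q a c (η / 4) T (-((∏ i ∈ S, P i : ℕ) : ℤ)) := by
        intro S hS
        have htS : t ∉ ES S := fun h' => htE (mem_biUnion.2 ⟨S, mem_univ S, h'⟩)
        have := hES2 S hS t htI htS
        rwa [hval S] at this
      have hP2 : ∀ i, P i ≠ 2 := by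
        intro i h0
        obtain ⟨g1, -⟩ := hgood {i} (singleton_nonempty i)
        rw [prod_singleton, h0] at g1
        obtain ⟨g2, -⟩ := g1.2 8 (Or.inr ⟨2, by norm_num, Or.inl (by norm_num),
          Int.squarefree_natCast.2 Nat.prime_two.squarefree⟩) ⟨4, by norm_num⟩
        norm_num at g2
        linarith
      have hlogP : 0 ≤ log ((∏ i, P i : ℕ) : ℝ) := log_natCast_nonneg _
      refine ⟨?_, fun m hm y hy1 hy2 => ?_⟩
      · refine le_trans ?_ k5
        have q1 : ((∏ i, P i : ℕ) : ℝ) ≤ (T : ℝ) ^ C3 := by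
          set M : ℝ := (T : ℝ) ^ ((1 + 1 / τ) * k) with hM
          have m1 : (T : ℝ) ^ (1 + 1 / τ) ≤ M :=
            rpow_le_rpow_of_exponent_le hTr (le_mul_of_one_le_right (by positivity) hkr)
          have m2 : (T : ℝ) ≤ (T : ℝ) ^ (1 + 1 / τ) := by
            rw [rpow_add hTp, rpow_one]
            exact le_mul_of_one_le_right hTp.le hTτ
          have m3 : (T : ℝ) ^ (1 / τ) ≤ (T : ℝ) ^ (1 + 1 / τ) :=
            rpow_le_rpow_of_exponent_le hTr (by linarith)
          have q2 : ∀ i, |((∏ i, f i).coeff i : ℝ)| ≤ M := by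
            intro n
            have g1 := coeff_prod_le f D hfD ((T : ℝ) ^ (1 / τ)) hTτ
              (fun i j => hinv _ (abs_nonneg _) (f5 i j)) univ n
            refine g1.trans ?_
            have e1 : (D + 1 : ℝ) * (T : ℝ) ^ (1 / τ) ≤ (T : ℝ) ^ (1 + 1 / τ) := by
              rw [rpow_add hTp, rpow_one]
              gcongr
            rw [card_univ, Fintype.card_fin, hM, rpow_mul hTp.le, rpow_natCast]
            exact pow_le_pow_left₀ (by positivity) e1 _
          have q3 : |(t : ℝ)| ≤ 2 * M := by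
            have e1 : (B : ℝ) < t := by exact_mod_cast ht1
            have e2 : (t : ℝ) ≤ B + T := by exact_mod_cast ht2
            have e3 := abs_le.1 (hinv _ (abs_nonneg _) f6)
            rw [abs_le]
            constructor <;> linarith [e3.1, e3.2]
          have q4 := val_le (∏ i, f i) D f2 M (by linarith) (by linarith) q2 t q3
          rw [hval univ] at q4
          have q5 : ((∏ i, P i : ℕ) : ℝ) ≤ M ^ (D + 2) := by
            refine le_trans ?_ q4
            rw [Int.cast_natCast]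
            exact le_abs_self _
          refine q5.trans (le_of_eq ?_)
          rw [hM, ← rpow_natCast, ← rpow_mul hTp.le, hC3]
        have q6 : log ((∏ i, P i : ℕ) : ℝ) ≤ C3 * log T := by
          rw [← log_rpow hTp]
          apply log_le_log _ q1
          exact_mod_cast Finset.prod_pos fun i _ => (hP i).pos
        have q7 := rpow_le_rpow hlogP q6 ha0.le
        linarith
      have hPT : ∀ i, (T : ℝ) ^ c ≤ P i := by
        intro i
        obtain ⟨g1, g2⟩ := hgood {i} (singleton_nonempty i)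
        rw [prod_singleton] at g1 g2
        have hodd := (hP i).odd_of_ne_two (hP2 i)
        rcases Nat.odd_mod_four_iff.1 (Nat.odd_iff.1 hodd) with h4 | h4
        · have := (g1.2 (P i : ℤ) (Or.inl ⟨by omega,
            Int.squarefree_natCast.2 (hP i).squarefree⟩) ⟨(P i : ℤ), rfl⟩).1
          push_cast at this
          rwa [abs_of_nonneg (by positivity)] at this
        · have := (g2.2 (-(P i : ℤ)) (Or.inl ⟨by omega,
            (Associated.squarefree_iff (Associated.neg_left (Associated.refl (P i : ℤ)))).2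
              (Int.squarefree_natCast.2 (hP i).squarefree)⟩) ⟨-(P i : ℤ), rfl⟩).1
          push_cast at this
          rwa [abs_neg, abs_of_nonneg (by positivity)] at this
      have hy3 : ∀ i, y < P i := by
        intro i
        have e1 : (y : ℝ) ≤ (T : ℝ) ^ (c / 2) :=
          hy2.trans (rpow_le_rpow_of_exponent_le hTr (min_le_left _ _))
        have e2 : (T : ℝ) ^ (c / 2) < (T : ℝ) ^ c := rpow_lt_rpow_of_exponent_lt k4 (by linarith)
        have e3 : (y : ℝ) < P i := by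
          have := hPT i
          linarith
        exact_mod_cast e3
      have hy2' : (y : ℝ) ≤ ((T : ℝ) ^ c) ^ c := by
        rw [← rpow_mul hTp.le]
        exact hy2.trans (rpow_le_rpow_of_exponent_le hTr (min_le_right _ _))
      have hmain := per_t hk Q a c (η / 4) T ha0 hc (by positivity) P hP hP2 hinj hgood m hm y hy1
        hy2' hy3
      have hyY : Y ≤ y := by
        refine k3.trans (le_trans ?_ hy1)
        have hclog : 0 ≤ c * log (T : ℝ) := mul_nonneg hc.le (log_nonneg hTr)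
        apply rpow_le_rpow hclog _ ha0.le
        have e1 : c * log (T : ℝ) = log ((T : ℝ) ^ c) := by rw [log_rpow hTp]
        rw [e1]
        apply log_le_log (by positivity)
        refine (hPT ⟨0, hk⟩).trans ?_
        have e2 : P ⟨0, hk⟩ ≤ ∏ i, P i :=
          Nat.le_of_dvd (Finset.prod_pos fun i _ => (hP i).pos)
            (Finset.dvd_prod_of_mem P (mem_univ _))
        exact_mod_cast e2
      have hlarge := hY y hyY
      have h4 : 4 ≤ η / 2 * (PQ Q y).card := by
        rw [div_le_iff₀ hη] at hlarge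
        linarith
      refine ⟨?_, hmain.trans ?_⟩
      · have e6 : (0 : ℝ) < (PQ Q y).card := by
          have : 0 < 8 / η := by positivity
          linarith
        exact_mod_cast e6
      have e5 : (2 / 2 ^ k + 2 * (η / 4)) * ((PQ Q y).card : ℝ) + 4 ≤
          (2 / 2 ^ k + 2 * (η / 4)) * ((PQ Q y).card : ℝ) + η / 2 * (PQ Q y).card := by linarith
      refine e5.trans (le_of_eq ?_)
      ring

end Pool.Agent.Q122.WS
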