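import Mathlib
import Pool.Agent.Helper112.Arith

/-! Counting the integers of an interval at which a polynomial is divisible by `m`. -/

set_option autoImplicit false

namespace Pool.Agent.Q122.WS

open Finset Polynomial

/-- residues `r < m` with `m ∣ f(r)` -/
def rt (f : ℤ[X]) (m : ℕ) : Finset ℕ := (range m).filter (fun r => (m : ℤ) ∣ f.eval (r : ℤ))

theorem dvd_of_sub (f : ℤ[X]) (m a b : ℤ) (h : m ∣ a - b) (hb : m ∣ f.eval b) : m ∣ f.eval a := by
  have h1 := Polynomial.sub_dvd_eval_sub a b f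
  have h2 := h.trans h1
  have h3 := dvd_add h2 hb
  simpa using h3

theorem rt_mul (f : ℤ[X]) (m n : ℕ) (hm : 0 < m) (hn : 0 < n) (h : m.Coprime n) :
    (rt f (m * n)).card ≤ (rt f m).card * (rt f n).card := by
  rw [← card_product]
  apply card_le_card_of_injOn (fun r => (r % m, r % n))
  · intro r hr
    have hr' : r ∈ rt f (m * n) := hr
    rw [rt, mem_filter, mem_range] at hr'
    have hd : ((m * n : ℕ) : ℤ) ∣ f.eval (r : ℤ) := hr'.2
    have e1 : (m : ℤ) ∣ f.eval (r : ℤ) := dvd_trans ⟨n, by push_cast; ring⟩ hd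
    have e2 : (n : ℤ) ∣ f.eval (r : ℤ) := dvd_trans ⟨m, by push_cast; ring⟩ hd
    have g : ∀ k : ℕ, (k : ℤ) ∣ f.eval (r : ℤ) → (k : ℤ) ∣ f.eval ((r % k : ℕ) : ℤ) := by
      intro k hk
      apply dvd_of_sub f k _ (r : ℤ) _ hk
      rw [Int.natCast_mod]
      exact (Int.mod_modEq (r : ℤ) k).symm.dvd
    show (r % m, r % n) ∈ ((rt f m ×ˢ rt f n : Finset (ℕ × ℕ)) : Set (ℕ × ℕ))
    rw [mem_coe, mem_product, rt, rt, mem_filter, mem_filter, mem_range, mem_range]
    exact ⟨⟨Nat.mod_lt _ hm, g m e1⟩, ⟨Nat.mod_lt _ hn, g n e2⟩⟩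
  · intro r hr s hs hrs
    have hr' : r ∈ rt f (m * n) := hr
    have hs' : s ∈ rt f (m * n) := hs
    rw [rt, mem_filter, mem_range] at hr' hs'
    simp only [Prod.mk.injEq] at hrs
    have h1 : r ≡ s [MOD m * n] := (Nat.modEq_and_modEq_iff_modEq_mul h).1 ⟨hrs.1, hrs.2⟩
    exact Nat.ModEq.eq_of_lt_of_lt h1 hr'.1 hs'.1

theorem rt_prime (f : ℤ[X]) (p : ℕ) (hp : p.Prime) (hf : ∃ i, ¬ (p : ℤ) ∣ f.coeff i) :
    (rt f p).card ≤ f.natDegree := by
  have : Fact p.Prime := ⟨hp⟩
  set g : (ZMod p)[X] := f.map (Int.castRingHom (ZMod p)) with hg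
  have hg0 : g ≠ 0 := by
    obtain ⟨i, hi⟩ := hf
    intro h0
    apply hi
    have h1 : g.coeff i = 0 := by rw [h0, coeff_zero]
    rw [hg, coeff_map, eq_intCast, ZMod.intCast_zmod_eq_zero_iff_dvd] at h1
    exact h1
  have h1 : (rt f p).card ≤ g.roots.toFinset.card := by
    apply card_le_card_of_injOn (fun r : ℕ => (r : ZMod p))
    · intro r hr
      have hr' : r ∈ rt f p := hr
      rw [rt, mem_filter, mem_range] at hr'
      show ((r : ℕ) : ZMod p) ∈ ((g.roots.toFinset : Finset (ZMod p)) : Set (ZMod p))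
      rw [mem_coe, Multiset.mem_toFinset, mem_roots hg0, IsRoot.def, hg]
      have h2 : ((r : ℕ) : ZMod p) = Int.castRingHom (ZMod p) (r : ℤ) := by simp
      rw [h2, eval_map, eval₂_hom]
      rw [eq_intCast, ZMod.intCast_zmod_eq_zero_iff_dvd]
      exact hr'.2
    · intro r hr s hs hrs
      have hr' : r ∈ rt f p := hr
      have hs' : s ∈ rt f p := hs
      rw [rt, mem_filter, mem_range] at hr' hs'
      have h2 : r ≡ s [MOD p] := (ZMod.natCast_eq_natCast_iff _ _ _).1 hrs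
      exact Nat.ModEq.eq_of_lt_of_lt h2 hr'.1 hs'.1
  calc (rt f p).card ≤ g.roots.toFinset.card := h1
    _ ≤ Multiset.card g.roots := Multiset.toFinset_card_le _
    _ ≤ g.natDegree := card_roots' g
    _ ≤ f.natDegree := natDegree_map_le

theorem rt_sqf (f : ℤ[X]) (D : ℕ) (hD : f.natDegree ≤ D) : ∀ m : ℕ, Squarefree m →
    (∀ p : ℕ, p.Prime → p ∣ m → ∃ i, ¬ (p : ℤ) ∣ f.coeff i) →
    (rt f m).card ≤ m.divisors.card ^ D := by
  intro m
  induction m using Nat.strong_induction_on with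
  | _ m ih =>
    intro hm hp
    rcases Nat.lt_or_ge 1 m with h1 | h1
    · set p := m.minFac with hpd
      have hpp : p.Prime := Nat.minFac_prime (by omega)
      obtain ⟨k, hk⟩ := Nat.minFac_dvd m
      have hk' : m = p * k := hk
      have hco : p.Coprime k := by
        rw [hk'] at hm
        exact Nat.coprime_of_squarefree_mul hm
      have hk0 : 0 < k := by
        rcases Nat.eq_zero_or_pos k with h | h
        · rw [h] at hk'; omega
        · exact h
      have hkm : k < m := by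
        rw [hk']
        have := hpp.two_le
        nlinarith
      have hks : Squarefree k := hm.squarefree_of_dvd ⟨p, by rw [hk']; ring⟩
      have h2 := ih k hkm hks (fun q hq hqk => hp q hq (hqk.trans ⟨p, by rw [hk']; ring⟩))
      have h3 := rt_prime f p hpp (hp p hpp ⟨k, hk'⟩)
      have h4 : p.divisors.card = 2 := by
        rw [hpp.divisors, card_pair hpp.one_lt.ne]
      rw [hk', hco.card_divisors_mul, h4, mul_pow]
      calc (rt f (p * k)).card ≤ (rt f p).card * (rt f k).card := rt_mul f p k hpp.pos hk0 hco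
        _ ≤ 2 ^ D * k.divisors.card ^ D := by
            apply Nat.mul_le_mul _ h2
            exact (h3.trans hD).trans (Nat.lt_two_pow_self).le
    · have hm0 : m ≠ 0 := hm.ne_zero
      have hm1 : m = 1 := by omega
      rw [hm1]
      simp [rt]

theorem cnt_class (B : ℤ) (T m : ℕ) (hm : 0 < m) (v : ℤ) :
    (((Ioc B (B + T)).filter (fun t => t ≡ v [ZMOD m])).card : ℝ) ≤ T / m + 1 := by
  have h1 := Int.Ioc_filter_modEq_card B (B + T) (r := (m : ℤ)) (by exact_mod_cast hm) v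
  have h2 : ((((Ioc B (B + T)).filter (fun t => t ≡ v [ZMOD m])).card : ℤ) : ℚ) ≤
      (T : ℚ) / m + 1 := by
    rw [h1]
    have hm' : (0 : ℚ) < m := by exact_mod_cast hm
    push_cast
    apply max_le
    · have f1 := Int.floor_le (((B : ℚ) + T - v) / m)
      have f2 := Int.lt_floor_add_one (((B : ℚ) - v) / m)
      have f3 : ((B : ℚ) + T - v) / m = ((B : ℚ) - v) / m + T / m := by
        rw [← add_div]; congr 1; ring
      rw [f3] at f1
      rw [f3]
      linarith
    · positivity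
  have h3 : ((((Ioc B (B + T)).filter (fun t => t ≡ v [ZMOD m])).card : ℚ) : ℝ) ≤
      (((T : ℚ) / m + 1 : ℚ) : ℝ) := by
    have h4 : (((Ioc B (B + T)).filter (fun t => t ≡ v [ZMOD m])).card : ℚ) ≤ (T : ℚ) / m + 1 := by
      exact_mod_cast h2
    exact_mod_cast h4
  push_cast at h3
  exact h3

theorem cnt_rt (f : ℤ[X]) (B : ℤ) (T m : ℕ) (hm : 0 < m) :
    (((Ioc B (B + T)).filter (fun t => (m : ℤ) ∣ f.eval t)).card : ℝ) ≤
      (rt f m).card * ((T : ℝ) / m + 1) := by
  have h1 : (Ioc B (B + T)).filter (fun t => (m : ℤ) ∣ f.eval t) ⊆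
      (rt f m).biUnion (fun r => (Ioc B (B + T)).filter (fun t => t ≡ (r : ℤ) [ZMOD m])) := by
    intro t ht
    rw [mem_filter] at ht
    have hm' : (0 : ℤ) < m := by exact_mod_cast hm
    have e0 := Int.emod_nonneg t hm'.ne'
    have e1 := Int.emod_lt_of_pos t hm'
    rw [mem_biUnion]
    have e2 : (((t % m).toNat : ℕ) : ℤ) = t % m := Int.toNat_of_nonneg e0
    refine ⟨(t % m).toNat, ?_, ?_⟩
    · rw [rt, mem_filter, mem_range]
      refine ⟨by omega, ?_⟩
      rw [e2]
      apply dvd_of_sub f m _ t _ ht.2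
      exact (Int.mod_modEq t m).symm.dvd
    · rw [mem_filter, e2]
      exact ⟨ht.1, (Int.mod_modEq t m).symm⟩
  have h2 := (card_le_card h1).trans card_biUnion_le
  calc (((Ioc B (B + T)).filter (fun t => (m : ℤ) ∣ f.eval t)).card : ℝ)
      ≤ ((∑ r ∈ rt f m, ((Ioc B (B + T)).filter (fun t => t ≡ (r : ℤ) [ZMOD m])).card : ℕ) : ℝ) := by
        exact_mod_cast h2
    _ = ∑ r ∈ rt f m, (((Ioc B (B + T)).filter (fun t => t ≡ (r : ℤ) [ZMOD m])).card : ℝ) := by
        push_cast; rfl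
    _ ≤ ∑ r ∈ rt f m, ((T : ℝ) / m + 1) := sum_le_sum fun r _ => cnt_class B T m hm r
    _ = (rt f m).card * ((T : ℝ) / m + 1) := by rw [sum_const, nsmul_eq_mul]

theorem cnt_dvd (D : ℕ) (ε : ℝ) (hε : 0 < ε) : ∃ C : ℝ, 0 < C ∧ ∀ (f : ℤ[X]) (m : ℕ) (B : ℤ) (T : ℕ),
    f.natDegree ≤ D → Squarefree m → (∀ p : ℕ, p.Prime → p ∣ m → ∃ i, ¬ (p : ℤ) ∣ f.coeff i) →
    (((Ioc B (B + T)).filter (fun t => (m : ℤ) ∣ f.eval t)).card : ℝ) ≤
      C * (m : ℝ) ^ ε * ((T : ℝ) / m + 1) := by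
  obtain ⟨C, hC, h⟩ := Helper112.divisor_bound (ε / (D + 1)) (by positivity)
  refine ⟨(max C 1) ^ D, by positivity, ?_⟩
  intro f m B T hf hm hp
  have hm0 : 0 < m := Nat.pos_of_ne_zero hm.ne_zero
  have hm1 : (1 : ℝ) ≤ m := by exact_mod_cast hm0
  refine (cnt_rt f B T m hm0).trans ?_
  have h1 : ((rt f m).card : ℝ) ≤ (m.divisors.card : ℝ) ^ D := by
    exact_mod_cast rt_sqf f D hf m hm hp
  have h2 := h m hm0
  have h3 : (m.divisors.card : ℝ) ^ D ≤ (max C 1) ^ D * (m : ℝ) ^ ε := by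
    calc (m.divisors.card : ℝ) ^ D ≤ (max C 1 * (m : ℝ) ^ (ε / (D + 1))) ^ D := by
          apply pow_le_pow_left₀ (by positivity)
          refine h2.trans ?_
          apply mul_le_mul_of_nonneg_right (le_max_left _ _) (by positivity)
      _ = (max C 1) ^ D * (m : ℝ) ^ (ε / (D + 1) * D) := by
          rw [mul_pow, Real.rpow_mul (by positivity), Real.rpow_natCast]
      _ ≤ _ := by
          apply mul_le_mul_of_nonneg_left _ (by positivity)
          apply Real.rpow_le_rpow_of_exponent_le hm1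
          rw [div_mul_eq_mul_div, div_le_iff₀ (by positivity)]
          nlinarith
  apply mul_le_mul_of_nonneg_right (h1.trans h3) (by positivity)

end Pool.Agent.Q122.WS
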