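import Pool.Agent.Q122.WS.GSet
import Pool.Agent.Q122.WS.Roots

/-! The structure of a composite integer without small witnesses, and three counting lemmas. -/

set_option autoImplicit false

namespace Pool.Agent.Q122.WS

open Finset Real Polynomial
open scoped Classical
open Pool.Agent.W57.SW Pool.Agent.H379R2.W

theorem struct (A δ : ℝ) (hA : 2 ≤ A) (hδ : 0 < δ) : ∃ N : ℕ, ∀ n : ℕ, N ≤ n → Bd A n →
    GA A n ∨ ∃ p m : ℕ, p.Prime ∧ n = p * m ∧ GA A m ∧ 2 ≤ m ∧ (p : ℝ) ^ (1 - 1 / A - δ) ≤ m := by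
  obtain ⟨N1, hN1⟩ := bad_squarefree
  obtain ⟨N2, hN23, hN2⟩ := bd_gcd A δ hA hδ
  have hA0 : 0 < A := by linarith
  have h1 : ∀ᶠ x : ℝ in Filter.atTop, (2 : ℝ) ≤ (log x) ^ A :=
    ((tendsto_rpow_atTop hA0).comp tendsto_log_atTop).eventually_ge_atTop 2
  obtain ⟨Y, hY⟩ := Filter.eventually_atTop.1 h1
  refine ⟨max N1 (max N2 ⌈Y⌉₊), fun n hn hb => ?_⟩
  have hn1 : N1 ≤ n := (le_max_left _ _).trans hn
  have hn2 : N2 ≤ n := ((le_max_left _ _).trans (le_max_right _ _)).trans hn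
  have hn3 : ⌈Y⌉₊ ≤ n := ((le_max_right _ _).trans (le_max_right _ _)).trans hn
  have hn33 : 3 ≤ n := hN23.trans hn2
  have hsq := hN1 n hn1 (hb.bad hA hn33)
  have hlog2 := hY n (Nat.ceil_le.1 hn3)
  have hlog : (log (n : ℝ)) ^ A ≤ 2 * (log (n : ℝ)) ^ A := by linarith
  rcases bd_struct hb le_rfl hlog hlog2 hsq with h | ⟨p, m, hp, hnm, hm⟩
  · exact Or.inl (GA_of_Dq hA0.le h)
  · right
    obtain ⟨g1, g2⟩ := hN2 n hn2 hb p m hp hnm
    refine ⟨p, m, hp, hnm, GA_of_Dq hA0.le hm, g2, g1.trans ?_⟩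
    have h3 : Nat.gcd (p - 1) (m - 1) ≤ m := (Nat.gcd_le_right _ (by omega)).trans (by omega)
    exact_mod_cast h3

/-- the cofactor is large -/
theorem m_large {A δ T : ℝ} {n p m : ℕ} (hA : 2 ≤ A) (hδ0 : 0 ≤ δ) (hδ : δ < 1 - 1 / A) (hT : 1 ≤ T)
    (hn : T ^ (2 - 1 / A) ≤ n) (hnm : n = p * m) (hp : 0 < p) (hm : 0 < m)
    (h : (p : ℝ) ^ (1 - 1 / A - δ) ≤ m) : T ^ (1 - 1 / A - δ) ≤ m := by
  set x : ℝ := 1 - 1 / A with hx
  have hA0 : 0 < A := by linarith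
  have hx1 : x < 1 := by
    have : 0 < 1 / A := by positivity
    rw [hx]; linarith
  have hp0 : (0 : ℝ) < p := by exact_mod_cast hp
  have hm0 : (0 : ℝ) < m := by exact_mod_cast hm
  have hT0 : 0 < T := by linarith
  have h1 : T ^ (1 + x) ≤ (p : ℝ) * m := by
    have e : (1 : ℝ) + x = 2 - 1 / A := by rw [hx]; ring
    rw [e]
    have : (n : ℝ) = p * m := by rw [hnm]; push_cast; ring
    rw [← this]
    exact hn
  have h2 : (T ^ (1 + x)) ^ (x - δ) ≤ (m : ℝ) ^ (1 + x - δ) := by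
    calc (T ^ (1 + x)) ^ (x - δ) ≤ ((p : ℝ) * m) ^ (x - δ) :=
          rpow_le_rpow (by positivity) h1 (by linarith)
      _ = (p : ℝ) ^ (x - δ) * (m : ℝ) ^ (x - δ) := mul_rpow hp0.le hm0.le
      _ ≤ m * (m : ℝ) ^ (x - δ) := mul_le_mul_of_nonneg_right h (by positivity)
      _ = (m : ℝ) ^ (1 + x - δ) := by
          rw [show 1 + x - δ = 1 + (x - δ) by ring, rpow_add hm0, rpow_one]
  have hpos : 0 < 1 + x - δ := by linarith
  have h3 : (T ^ (x - δ)) ^ (1 + x - δ) ≤ (m : ℝ) ^ (1 + x - δ) := by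
    refine le_trans ?_ h2
    rw [← rpow_mul hT0.le, ← rpow_mul hT0.le]
    apply rpow_le_rpow_of_exponent_le hT
    nlinarith
  exact (rpow_le_rpow_iff (by positivity) hm0.le hpos).1 h3

theorem sum_rpow (s : ℝ) (hs0 : 0 < s) (hs : s < 1) : ∀ n : ℕ,
    ∑ k ∈ Icc 1 n, (k : ℝ) ^ (-s) ≤ (n : ℝ) ^ (1 - s) / (1 - s) := by
  intro n
  induction n with
  | zero =>
    simp
    positivity
  | succ n ih =>
    rw [Finset.sum_Icc_succ_top (by omega)]
    have hn : (0 : ℝ) < (n : ℝ) + 1 := by positivity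
    have h1 : (1 + (-1 / ((n : ℝ) + 1))) ^ (1 - s) ≤ 1 + (1 - s) * (-1 / ((n : ℝ) + 1)) := by
      apply rpow_one_add_le_one_add_mul_self _ (by linarith) (by linarith)
      rw [le_div_iff₀ hn]
      linarith [show (0 : ℝ) ≤ n by positivity]
    have e1 : (1 : ℝ) + (-1 / ((n : ℝ) + 1)) = n / ((n : ℝ) + 1) := by field_simp; ring
    rw [e1, div_rpow (by positivity) hn.le, div_le_iff₀ (by positivity)] at h1
    have e2 : ((n : ℝ) + 1) ^ (1 - s) = ((n : ℝ) + 1) * ((n : ℝ) + 1) ^ (-s) := by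
      rw [show 1 - s = 1 + -s by ring, rpow_add hn, rpow_one]
    have h2 : (n : ℝ) ^ (1 - s) ≤ ((n : ℝ) + 1) ^ (1 - s) - (1 - s) * ((n : ℝ) + 1) ^ (-s) := by
      refine h1.trans (le_of_eq ?_)
      rw [e2]
      field_simp
      ring
    have hs' : 0 < 1 - s := by linarith
    rw [le_div_iff₀ hs'] at ih ⊢
    push_cast
    nlinarith

/-- each value is taken few times -/
theorem fiber (f : ℤ[X]) (D : ℕ) (hf1 : 1 ≤ f.natDegree) (hfD : f.natDegree ≤ D) (S : Finset ℤ)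
    (n : ℤ) : (S.filter (fun t => f.eval t = n)).card ≤ D := by
  have h0 : f - C n ≠ 0 := by
    intro h
    have : f = C n := by rwa [sub_eq_zero] at h
    rw [this, natDegree_C] at hf1
    omega
  have h1 : S.filter (fun t => f.eval t = n) ⊆ (f - C n).roots.toFinset := by
    intro t ht
    rw [mem_filter] at ht
    rw [Multiset.mem_toFinset, mem_roots h0, IsRoot.def, eval_sub, eval_C, ht.2, sub_self]
  calc (S.filter (fun t => f.eval t = n)).card ≤ (f - C n).roots.toFinset.card := card_le_card h1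
    _ ≤ Multiset.card (f - C n).roots := Multiset.toFinset_card_le _
    _ ≤ (f - C n).natDegree := card_roots' _
    _ = f.natDegree := natDegree_sub_C
    _ ≤ D := hfD

end Pool.Agent.Q122.WS
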