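import Pool.Agent.Q122.TF.Segs

/-! The polynomial `f(r + p X) / p`. -/

set_option autoImplicit false

namespace Pool.Agent.Q122.WS

open Finset Polynomial
open scoped Classical
open Pool.Agent.Q122.TF

theorem sqf_sub (F G : ℚ[X]) (c p r : ℚ) (hp : p ≠ 0)
    (h : C c * G = (taylor r F).comp (C p * X)) (hF : Squarefree F) : Squarefree G := by
  set u : ℚ[X] := C p⁻¹ * (X - C r) with hu
  have e1 : (C p * X : ℚ[X]).comp u = X - C r := by
    rw [mul_comp, C_comp, X_comp, hu, ← mul_assoc, ← C_mul, mul_inv_cancel₀ hp, C_1, one_mul]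
  have e2 : ((taylor r F).comp (C p * X)).comp u = F := by
    rw [comp_assoc, e1, taylor_apply, comp_assoc]
    simp
  have e3 : C c * (G.comp u) = F := by
    have := congrArg (fun q : ℚ[X] => q.comp u) h
    simp only [mul_comp, C_comp] at this
    rw [this]
    exact e2
  have hF0 : F ≠ 0 := hF.ne_zero
  have hun : u.natDegree = 1 := by
    rw [hu, natDegree_C_mul (inv_ne_zero hp), natDegree_X_sub_C]
  intro y hy
  obtain ⟨z, hz⟩ := hy
  have h1 : (y.comp u) * (y.comp u) ∣ F := by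
    rw [← e3, hz, mul_comp, mul_comp]
    exact ⟨C c * z.comp u, by ring⟩
  have h2 := hF _ h1
  have hy0 : y ≠ 0 := by
    rintro rfl
    apply hF0
    rw [← e3, hz]
    simp
  have h3 : (y.comp u).natDegree = 0 := natDegree_eq_zero_of_isUnit h2
  rw [natDegree_comp, hun, mul_one] at h3
  rw [isUnit_iff_degree_eq_zero, degree_eq_natDegree hy0, h3]
  rfl

theorem sub_poly (f : ℤ[X]) (r : ℤ) (p : ℕ) (hp : 0 < p) (h : (p : ℤ) ∣ f.eval r) :
    ∃ g : ℤ[X], (∀ s : ℤ, (p : ℤ) * g.eval s = f.eval (r + p * s)) ∧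
      g.natDegree = f.natDegree ∧
      (Squarefree (f.map (Int.castRingHom ℚ)) → Squarefree (g.map (Int.castRingHom ℚ))) ∧
      ∀ i, |(g.coeff i : ℝ)| ≤ |(((hasseDeriv i f).eval r : ℤ) : ℝ)| * (p : ℝ) ^ i := by
  have hp0 : (p : ℤ) ≠ 0 := by exact_mod_cast hp.ne'
  have hc : ∀ i, ((taylor r f).comp (C (p : ℤ) * X)).coeff i = (taylor r f).coeff i * (p : ℤ) ^ i := by
    intro i
    exact comp_C_mul_X_coeff
  have hd : C (p : ℤ) ∣ (taylor r f).comp (C (p : ℤ) * X) := by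
    rw [C_dvd_iff_dvd_coeff]
    intro i
    rw [hc]
    rcases Nat.eq_zero_or_pos i with h0 | h0
    · rw [h0, taylor_coeff_zero, pow_zero, mul_one]
      exact h
    · exact dvd_mul_of_dvd_right (dvd_pow_self _ (by omega)) _
  obtain ⟨g, hg⟩ := hd
  refine ⟨g, ?_, ?_, ?_, ?_⟩
  · intro s
    have h1 := congrArg (fun q : ℤ[X] => q.eval s) hg
    simp only [eval_mul, eval_C, eval_comp, eval_X, taylor_eval] at h1
    rw [← h1, add_comm]
  · have h1 := congrArg natDegree hg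
    rw [natDegree_comp, natDegree_taylor, natDegree_C_mul hp0, natDegree_C_mul hp0, natDegree_X,
      mul_one] at h1
    exact h1.symm
  · intro hF
    apply sqf_sub (f.map (Int.castRingHom ℚ)) (g.map (Int.castRingHom ℚ)) (p : ℚ) (p : ℚ) (r : ℚ)
      (by exact_mod_cast hp.ne') _ hF
    have h1 := congrArg (Polynomial.map (Int.castRingHom ℚ)) hg
    rw [Polynomial.map_mul, map_comp, Polynomial.map_mul, map_C, map_X] at h1
    simp only [eq_intCast, Int.cast_natCast] at h1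
    rw [← h1]
    rw [taylor_apply, taylor_apply, map_comp, Polynomial.map_add, map_X, map_C]
    simp only [eq_intCast]
  · intro i
    have h1 : (p : ℤ) * g.coeff i = (hasseDeriv i f).eval r * (p : ℤ) ^ i := by
      rw [← taylor_coeff, ← hc, hg, coeff_C_mul]
    have h2 : (p : ℝ) * (g.coeff i : ℝ) = (((hasseDeriv i f).eval r : ℤ) : ℝ) * (p : ℝ) ^ i := by
      exact_mod_cast h1
    have hp1 : (1 : ℝ) ≤ p := by exact_mod_cast hp
    calc |(g.coeff i : ℝ)| ≤ p * |(g.coeff i : ℝ)| := le_mul_of_one_le_left (abs_nonneg _) hp1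
      _ = |(p : ℝ) * (g.coeff i : ℝ)| := by
          rw [abs_mul, abs_of_nonneg (show (0 : ℝ) ≤ (p : ℝ) by linarith)]
      _ = _ := by
          rw [h2, abs_mul, abs_of_nonneg (show (0 : ℝ) ≤ (p : ℝ) ^ i by positivity)]

theorem hasse_le (f : ℤ[X]) (D : ℕ) (hfD : f.natDegree ≤ D) (M : ℝ) (hM1 : 1 ≤ M)
    (hfM : ∀ i, |(f.coeff i : ℝ)| ≤ M) (r : ℤ) (hr : |(r : ℝ)| ≤ 2 * M) (i : ℕ) :
    |(((hasseDeriv i f).eval r : ℤ) : ℝ)| ≤ ((D + 1) * 2 ^ D * M) ^ (D + 2) := by
  have hD1 : (1 : ℝ) ≤ (2 : ℝ) ^ D := one_le_pow₀ (by norm_num)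
  have hD2 : (1 : ℝ) ≤ (D : ℝ) + 1 := by
    have : (0 : ℝ) ≤ D := by positivity
    linarith
  have hD3 : (2 : ℝ) ^ D ≤ ((D : ℝ) + 1) * 2 ^ D := le_mul_of_one_le_left (by positivity) hD2
  have hD4 : 1 ≤ ((D : ℝ) + 1) * 2 ^ D := hD1.trans hD3
  apply val_le (hasseDeriv i f) D
    ((natDegree_hasseDeriv_le f i).trans ((Nat.sub_le _ _).trans hfD))
  · exact hD4.trans (le_mul_of_one_le_right (by positivity) hM1)
  · exact le_mul_of_one_le_right (by positivity) hM1
  · intro j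
    rw [hasseDeriv_coeff]
    push_cast
    rw [abs_mul, abs_of_nonneg (by positivity)]
    rcases Nat.lt_or_ge D (j + i) with h | h
    · rw [coeff_eq_zero_of_natDegree_lt (by omega)]
      simp
      positivity
    · have h1 : (((j + i).choose i : ℕ) : ℝ) ≤ 2 ^ D := by
        have h2 : (j + i).choose i ≤ 2 ^ D :=
          (Nat.choose_le_two_pow _ _).trans (Nat.pow_le_pow_right (by norm_num) h)
        exact_mod_cast h2
      calc (((j + i).choose i : ℕ) : ℝ) * |(f.coeff (j + i) : ℝ)| ≤ 2 ^ D * M := by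
            gcongr
            exact hfM _
        _ ≤ ((D : ℝ) + 1) * 2 ^ D * M := by gcongr
  · refine hr.trans ?_
    have h1 : M ≤ ((D : ℝ) + 1) * 2 ^ D * M := le_mul_of_one_le_left (by linarith) hD4
    linarith

end Pool.Agent.Q122.WS
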