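import Pool.Agent.Q122.WS.Mach
import Pool.Agent.Q122.WS.Struct
import Pool.Agent.Q122.WS.SubP

/-! The values `f(t) = p m` with a small prime `p` and `m` in the set. -/

set_option autoImplicit false

namespace Pool.Agent.Q122.WS

open Finset Real Polynomial
open scoped Classical
open Pool.Agent.W57.SW Pool.Agent.H379R2.W Pool.Agent.Q122.TF

/-- the integers `t` of the interval with `f(t) = p m`, `m` in the set -/
noncomputable def vp (A : ℝ) (f : ℤ[X]) (B : ℤ) (T p : ℕ) : Finset ℤ :=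
  (Ioc B (B + T)).filter (fun t => ∃ m : ℕ, f.eval t = (p : ℤ) * m ∧ GA A m)

theorem per_p (D : ℕ) (A τ ε κ : ℝ) (hD : 1 ≤ D) (hA : 1 < A) (hτ : 0 < τ) (hε : 0 < ε)
    (hκ : κ < 1) : ∃ K T0 : ℝ, 0 < K ∧ ∀ (f : ℤ[X]) (B : ℤ) (T : ℕ), T0 ≤ T →
      1 ≤ T → 1 ≤ f.natDegree → f.natDegree ≤ D → Squarefree (f.map (Int.castRingHom ℚ)) →
      (∀ p : ℕ, p.Prime → ∃ i, ¬ (p : ℤ) ∣ f.coeff i) →
      (∀ i, |(f.coeff i : ℝ)| ^ τ ≤ T) → |(B : ℝ)| ^ τ ≤ T →
      ∀ p : ℕ, p.Prime → (p : ℝ) ≤ (T : ℝ) ^ κ → (p : ℝ) ≤ T →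
        ((vp A f B T p).card : ℝ) ≤ K * (2 * T / p) ^ (1 / 2 + 1 / (2 * A) + ε) := by
  have hA0 : 0 < A := by linarith
  set C2 : ℝ := (1 / τ + 2) * (D + 2) + D with hC2
  have hC20 : 0 < C2 := by positivity
  obtain ⟨K, hK, hm⟩ := mach D hD A ((1 - κ) / C2) ε hA (div_pos (by linarith) hC20) hε
  refine ⟨2 * D * K, (D + 1) * 2 ^ (D + 1), by positivity, ?_⟩
  intro f B T hTT hT h1 h2 h3 h4 h5 h6 p hp hpκ hpT
  have hTr : (1 : ℝ) ≤ T := by exact_mod_cast hT
  have hT0 : (0 : ℝ) < T := by linarith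
  have hp0 : (0 : ℝ) < p := by exact_mod_cast hp.pos
  have hp1 : (1 : ℝ) ≤ p := by exact_mod_cast hp.pos
  set L : ℕ := T / p + 1 with hL
  have hL1 : 1 ≤ L := Nat.le_add_left 1 _
  have hLlow : (T : ℝ) / p ≤ L := by
    rw [div_le_iff₀ hp0]
    have : T ≤ L * p := by
      rw [hL]
      have := Nat.lt_div_mul_add hp.pos (a := T)
      rw [Nat.add_mul, one_mul]
      exact this.le
    exact_mod_cast this
  have hLup : (L : ℝ) ≤ 2 * T / p := by
    have e1 : ((T / p : ℕ) : ℝ) ≤ (T : ℝ) / p := Nat.cast_div_le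
    have e2 : 1 ≤ (T : ℝ) / p := by rw [le_div_iff₀ hp0]; linarith
    have e3 : (2 : ℝ) * T / p = T / p + T / p := by ring
    rw [hL, e3]
    push_cast
    linarith
  have hLκ : (T : ℝ) ^ (1 - κ) ≤ L := by
    refine le_trans ?_ hLlow
    rw [le_div_iff₀ hp0]
    calc (T : ℝ) ^ (1 - κ) * p ≤ (T : ℝ) ^ (1 - κ) * (T : ℝ) ^ κ := by gcongr
      _ = T := by rw [← rpow_add hT0]; simp
  -- one class
  have hclass : ∀ r : ℤ, r ∈ Ioc B (B + p) → (p : ℤ) ∣ f.eval r →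
      (((vp A f B T p).filter (fun t => t ≡ r [ZMOD p])).card : ℝ) ≤
        K * (L : ℝ) ^ (1 / 2 + 1 / (2 * A) + ε) := by
    intro r hr hpr
    obtain ⟨g, g1, g2, g3, g4⟩ := sub_poly f r p hp.pos hpr
    rw [mem_Ioc] at hr
    have hcoef : ∀ i, |(g.coeff i : ℝ)| ^ ((1 - κ) / C2) ≤ L := by
      intro i
      rcases Nat.lt_or_ge D i with hi | hi
      · rw [coeff_eq_zero_of_natDegree_lt (by omega)]
        rw [Int.cast_zero, abs_zero, zero_rpow (div_pos (by linarith) hC20).ne']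
        positivity
      · set M : ℝ := (T : ℝ) ^ (1 / τ) + T with hM
        have hTτ : 1 ≤ (T : ℝ) ^ (1 / τ) := one_le_rpow hTr (by positivity)
        have hinv : ∀ z : ℝ, 0 ≤ z → z ^ τ ≤ T → z ≤ (T : ℝ) ^ (1 / τ) := by
          intro z hz hzT
          calc z = (z ^ τ) ^ (1 / τ) := by
                rw [← rpow_mul hz, mul_one_div_cancel hτ.ne', rpow_one]
            _ ≤ _ := rpow_le_rpow (by positivity) hzT (by positivity)
        have hB := hinv _ (abs_nonneg _) h6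
        have hM1 : 1 ≤ M := by rw [hM]; linarith
        have hr2 : |(r : ℝ)| ≤ 2 * M := by
          have e1 : (B : ℝ) < r := by exact_mod_cast hr.1
          have e2 : (r : ℝ) ≤ B + p := by exact_mod_cast hr.2
          have e3 := abs_le.1 hB
          rw [abs_le]
          constructor <;> linarith [e3.1, e3.2]
        have hM2 : M ≤ 2 * (T : ℝ) ^ (1 / τ + 1) := by
          rw [hM, rpow_add hT0, rpow_one]
          nlinarith
        have hbig := hasse_le f D h2 M hM1 (fun j => (hinv _ (abs_nonneg _) (h5 j)).trans (by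
          rw [hM]; linarith)) r hr2 i
        have hbig2 : |(g.coeff i : ℝ)| ≤ (T : ℝ) ^ C2 := by
          calc |(g.coeff i : ℝ)| ≤ |(((hasseDeriv i f).eval r : ℤ) : ℝ)| * (p : ℝ) ^ i := g4 i
            _ ≤ ((D + 1) * 2 ^ D * M) ^ (D + 2) * (T : ℝ) ^ D := by
                apply mul_le_mul hbig _ (by positivity) (by positivity)
                calc (p : ℝ) ^ i ≤ (T : ℝ) ^ i := pow_le_pow_left₀ hp0.le hpT i
                  _ ≤ (T : ℝ) ^ D := pow_le_pow_right₀ hTr hi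
            _ ≤ ((T : ℝ) ^ (1 / τ + 2)) ^ (D + 2) * (T : ℝ) ^ D := by
                gcongr
                calc ((D : ℝ) + 1) * 2 ^ D * M ≤ (D + 1) * 2 ^ D * (2 * (T : ℝ) ^ (1 / τ + 1)) := by
                      gcongr
                  _ = ((D + 1) * 2 ^ (D + 1)) * (T : ℝ) ^ (1 / τ + 1) := by ring
                  _ ≤ T * (T : ℝ) ^ (1 / τ + 1) := by gcongr
                  _ = (T : ℝ) ^ (1 / τ + 2) := by
                      rw [show 1 / τ + 2 = 1 + (1 / τ + 1) by ring, rpow_add hT0 1, rpow_one]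
            _ = (T : ℝ) ^ C2 := by
                rw [← rpow_natCast ((T : ℝ) ^ (1 / τ + 2)), ← rpow_mul hT0.le,
                  ← rpow_natCast (T : ℝ) D, ← rpow_add hT0, hC2]
                push_cast
                rfl
        calc |(g.coeff i : ℝ)| ^ ((1 - κ) / C2) ≤ ((T : ℝ) ^ C2) ^ ((1 - κ) / C2) :=
              rpow_le_rpow (abs_nonneg _) hbig2 (div_pos (by linarith) hC20).le
          _ = (T : ℝ) ^ (1 - κ) := by
              rw [← rpow_mul hT0.le, mul_div_cancel₀ _ hC20.ne']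
          _ ≤ L := hLκ
    have hmm := hm g (-1) L hL1 (by rw [g2]; exact h1) (by rw [g2]; exact h2) (g3 h3) hcoef (by
      push_cast
      rw [abs_neg, abs_one, one_rpow]
      exact_mod_cast hL1)
    refine le_trans ?_ hmm
    have hsub : (vp A f B T p).filter (fun t => t ≡ r [ZMOD p]) ⊆
        (vals A g (-1) L).image (fun s => r + p * s) := by
      intro t ht
      rw [mem_filter, vp, mem_filter, mem_Ioc] at ht
      obtain ⟨⟨⟨t1, t2⟩, m, hm1, hm2⟩, t3⟩ := ht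
      obtain ⟨s, hs⟩ := t3.symm.dvd
      have hts : t = r + p * s := by linarith
      rw [mem_image]
      refine ⟨s, ?_, hts.symm⟩
      have hpz : (0 : ℤ) < p := by exact_mod_cast hp.pos
      rw [vals, mem_filter, mem_Ioc]
      refine ⟨⟨?_, ?_⟩, m, ?_, hm2⟩
      · by_contra hcon
        push Not at hcon
        nlinarith
      · have e1 : (p : ℤ) * s ≤ T := by linarith
        have e2 : s ≤ (T : ℤ) / p := by
          rw [Int.le_ediv_iff_mul_le hpz]
          linarith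
        rw [hL]
        push_cast
        linarith
      · have e1 := g1 s
        rw [← hts, hm1] at e1
        exact mul_left_cancel₀ hpz.ne' e1
    exact_mod_cast (card_le_card hsub).trans card_image_le
  -- all classes
  set R : Finset ℤ := (Ioc B (B + p)).filter (fun t => (p : ℤ) ∣ f.eval t) with hR
  have hRc : (R.card : ℝ) ≤ 2 * D := by
    have e1 := cnt_rt f B p p hp.pos
    have e2 := rt_prime f p hp (h4 p hp)
    have e3 : ((rt f p).card : ℝ) ≤ D := by exact_mod_cast e2.trans h2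
    rw [div_self hp0.ne'] at e1
    rw [hR]
    linarith
  have hcover : vp A f B T p ⊆ R.biUnion (fun r => (vp A f B T p).filter (fun t => t ≡ r [ZMOD p])) := by
    intro t ht
    have ht' := ht
    rw [vp, mem_filter, mem_Ioc] at ht'
    obtain ⟨⟨t1, t2⟩, m, hm1, hm2⟩ := ht'
    have hpz : (0 : ℤ) < p := by exact_mod_cast hp.pos
    have e1 := Int.emod_nonneg (t - B - 1) hpz.ne'
    have e2 := Int.emod_lt_of_pos (t - B - 1) hpz
    have e3 : t ≡ B + 1 + (t - B - 1) % p [ZMOD p] := by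
      have := (Int.mod_modEq (t - B - 1) (p : ℤ)).symm
      have h7 := (Int.ModEq.refl (B + 1)).add this
      have h8 : B + 1 + (t - B - 1) = t := by ring
      rwa [h8] at h7
    rw [mem_biUnion]
    refine ⟨B + 1 + (t - B - 1) % p, ?_, ?_⟩
    · rw [hR, mem_filter, mem_Ioc]
      refine ⟨⟨by linarith, by linarith⟩, ?_⟩
      apply dvd_of_sub f p _ t e3.dvd
      rw [hm1]
      exact dvd_mul_right _ _
    · rw [mem_filter]
      exact ⟨ht, e3⟩
  have hcard : ((vp A f B T p).card : ℝ) ≤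
      ∑ r ∈ R, (((vp A f B T p).filter (fun t => t ≡ r [ZMOD p])).card : ℝ) := by
    exact_mod_cast (card_le_card hcover).trans card_biUnion_le
  have hexp : (0 : ℝ) ≤ 1 / 2 + 1 / (2 * A) + ε := by positivity
  calc ((vp A f B T p).card : ℝ)
      ≤ ∑ r ∈ R, (((vp A f B T p).filter (fun t => t ≡ r [ZMOD p])).card : ℝ) := hcard
    _ ≤ ∑ r ∈ R, K * (L : ℝ) ^ (1 / 2 + 1 / (2 * A) + ε) := by
        refine sum_le_sum fun r hr => ?_
        rw [hR, mem_filter] at hr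
        exact hclass r hr.1 hr.2
    _ = R.card * (K * (L : ℝ) ^ (1 / 2 + 1 / (2 * A) + ε)) := by rw [sum_const, nsmul_eq_mul]
    _ ≤ 2 * D * (K * (2 * T / p) ^ (1 / 2 + 1 / (2 * A) + ε)) := by gcongr
    _ = _ := by ring

theorem part_a (D : ℕ) (A τ ε κ : ℝ) (hD : 1 ≤ D) (hA : 1 < A) (hτ : 0 < τ) (hε : 0 < ε)
    (hκ0 : 0 ≤ κ) (hκ : κ < 1) : ∃ K T0 : ℝ, 0 < K ∧ ∀ (f : ℤ[X]) (B : ℤ) (T : ℕ), T0 ≤ T →
      1 ≤ T → 1 ≤ f.natDegree → f.natDegree ≤ D → Squarefree (f.map (Int.castRingHom ℚ)) →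
      (∀ p : ℕ, p.Prime → ∃ i, ¬ (p : ℤ) ∣ f.coeff i) →
      (∀ i, |(f.coeff i : ℝ)| ^ τ ≤ T) → |(B : ℝ)| ^ τ ≤ T →
        (((Ioc B (B + T)).filter (fun t => ∃ p m : ℕ, p.Prime ∧ (p : ℝ) ≤ (T : ℝ) ^ κ ∧
          f.eval t = ((p * m : ℕ) : ℤ) ∧ GA A m)).card : ℝ) ≤
          K * (T : ℝ) ^ ((1 / 2 + 1 / (2 * A)) + (1 - (1 / 2 + 1 / (2 * A))) * κ + ε) := by
  have hA0 : 0 < A := by linarith
  have hσ1 : 1 / 2 + 1 / (2 * A) < 1 := by
    have : 1 / (2 * A) < 1 / 2 := by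
      apply one_div_lt_one_div_of_lt (by norm_num)
      linarith
    linarith
  set σ : ℝ := 1 / 2 + 1 / (2 * A) with hσ
  have hσ0 : 0 < σ := by positivity
  obtain ⟨e, he0, heε, he1⟩ : ∃ e : ℝ, 0 < e ∧ e ≤ ε ∧ σ + e < 1 :=
    ⟨min ε ((1 - σ) / 2), lt_min hε (by linarith), min_le_left _ _, by
      have := min_le_right ε ((1 - σ) / 2)
      linarith⟩
  obtain ⟨K, T0, hK, h⟩ := per_p D A τ e κ hD hA hτ he0 hκ
  rw [← hσ] at h
  refine ⟨2 * K / (1 - (σ + e)), T0, div_pos (by positivity) (by linarith), ?_⟩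
  intro f B T hTT hT h1 h2 h3 h4 h5 h6
  have hTr : (1 : ℝ) ≤ T := by exact_mod_cast hT
  have hT0 : (0 : ℝ) < T := by linarith
  have hTκ : (T : ℝ) ^ κ ≤ T := by
    calc (T : ℝ) ^ κ ≤ (T : ℝ) ^ (1 : ℝ) := rpow_le_rpow_of_exponent_le hTr hκ.le
      _ = T := rpow_one _
  set P : ℕ := ⌊(T : ℝ) ^ κ⌋₊ with hP
  have hPle : (P : ℝ) ≤ (T : ℝ) ^ κ := Nat.floor_le (by positivity)
  have hcover : (Ioc B (B + T)).filter (fun t => ∃ p m : ℕ, p.Prime ∧ (p : ℝ) ≤ (T : ℝ) ^ κ ∧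
      f.eval t = ((p * m : ℕ) : ℤ) ∧ GA A m) ⊆
      ((Icc 1 P).filter Nat.Prime).biUnion (fun p => vp A f B T p) := by
    intro t ht
    rw [mem_filter] at ht
    obtain ⟨ht1, p, m, hp, hp2, hp3, hp4⟩ := ht
    rw [mem_biUnion]
    refine ⟨p, ?_, ?_⟩
    · rw [mem_filter, mem_Icc]
      exact ⟨⟨hp.one_le, Nat.le_floor hp2⟩, hp⟩
    · rw [vp, mem_filter]
      refine ⟨ht1, m, ?_, hp4⟩
      rw [hp3]
      push_cast
      rfl
  have hcard := (card_le_card hcover).trans card_biUnion_le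
  calc (((Ioc B (B + T)).filter (fun t => ∃ p m : ℕ, p.Prime ∧ (p : ℝ) ≤ (T : ℝ) ^ κ ∧
          f.eval t = ((p * m : ℕ) : ℤ) ∧ GA A m)).card : ℝ)
      ≤ ∑ p ∈ (Icc 1 P).filter Nat.Prime, ((vp A f B T p).card : ℝ) := by exact_mod_cast hcard
    _ ≤ ∑ p ∈ (Icc 1 P).filter Nat.Prime, K * (2 * T / p) ^ (σ + e) := by
        refine sum_le_sum fun p hp => ?_
        rw [mem_filter, mem_Icc] at hp
        have hpκ : (p : ℝ) ≤ (T : ℝ) ^ κ := by
          have : (p : ℝ) ≤ P := by exact_mod_cast hp.1.2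
          linarith
        exact h f B T hTT hT h1 h2 h3 h4 h5 h6 p hp.2 hpκ (hpκ.trans hTκ)
    _ ≤ ∑ p ∈ Icc 1 P, K * (2 * T / p) ^ (σ + e) :=
        sum_le_sum_of_subset_of_nonneg (filter_subset _ _) fun _ _ _ => by positivity
    _ = K * (2 * T) ^ (σ + e) * ∑ p ∈ Icc 1 P, (p : ℝ) ^ (-(σ + e)) := by
        rw [mul_sum]
        refine sum_congr rfl fun p hp => ?_
        rw [div_rpow (by positivity) (by positivity), rpow_neg (by positivity)]
        ring
    _ ≤ K * (2 * T) ^ (σ + e) * ((P : ℝ) ^ (1 - (σ + e)) / (1 - (σ + e))) := by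
        gcongr
        exact sum_rpow (σ + e) (by linarith) he1 P
    _ ≤ K * (2 * (T : ℝ) ^ (σ + e)) * (((T : ℝ) ^ κ) ^ (1 - (σ + e)) / (1 - (σ + e))) := by
        have h7 : (2 * (T : ℝ)) ^ (σ + e) ≤ 2 * (T : ℝ) ^ (σ + e) := by
          rw [mul_rpow (by norm_num) hT0.le]
          apply mul_le_mul_of_nonneg_right _ (by positivity)
          calc (2 : ℝ) ^ (σ + e) ≤ (2 : ℝ) ^ (1 : ℝ) :=
                rpow_le_rpow_of_exponent_le (by norm_num) he1.le
            _ = 2 := rpow_one _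
        have h8 : (P : ℝ) ^ (1 - (σ + e)) ≤ ((T : ℝ) ^ κ) ^ (1 - (σ + e)) :=
          rpow_le_rpow (by positivity) hPle (by linarith)
        have h9 : 0 < 1 - (σ + e) := by linarith
        gcongr
    _ = 2 * K / (1 - (σ + e)) * (T : ℝ) ^ (σ + e + κ * (1 - (σ + e))) := by
        rw [← rpow_mul hT0.le, rpow_add hT0 (σ + e)]
        ring
    _ ≤ 2 * K / (1 - (σ + e)) * (T : ℝ) ^ (σ + (1 - σ) * κ + ε) := by
        apply mul_le_mul_of_nonneg_left _ (div_pos (by positivity) (by linarith)).le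
        apply rpow_le_rpow_of_exponent_le hTr
        nlinarith

end Pool.Agent.Q122.WS
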